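import Pool.Agent.MP_9bb777_an.Slice

/-! From the slice to almost every tuple of quaternions. -/

namespace Pool.Agent.MP_9bb777_an

open Quaternion Real MeasureTheory Filter

lemma Dio.conj {ι : Type} {β : ℝ} {s x : ι → ℍ[ℝ]} (h : Dio β s) {g : ℍ[ℝ]} (hg : g ≠ 0)
    (c : ι → ℝ) (hx : ∀ i, x i = c i • (g * s i * star g)) : Dio β x := by
  obtain ⟨C, hC⟩ := h
  refine ⟨C, fun L hL hr => ?_⟩
  have hN : normSq g ≠ 0 := normSq_ne_zero.mpr hg
  have h1 : ∀ L : List (ι × Bool), ∃ l : ℝ, wq x L = l • (g * wq s L * star g) := by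
    intro L
    induction L with
    | nil =>
      refine ⟨(normSq g)⁻¹, ?_⟩
      rw [wq_nil, wq_nil, mul_one, self_mul_star, ← coe_mul_eq_smul, ← coe_mul,
        inv_mul_cancel₀ hN, coe_one]
    | cons a L ih =>
      obtain ⟨l, hl⟩ := ih
      refine ⟨c a.1 * l * normSq g, ?_⟩
      have h2 : cond a.2 (x a.1) (star (x a.1)) =
          c a.1 • (g * cond a.2 (s a.1) (star (s a.1)) * star g) := by
        cases a.2
        · simp [hx, mul_assoc]
        · exact hx _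
      rw [wq_cons, wq_cons, hl, h2, smul_mul_smul_comm, mul_smul _ (normSq g)]
      congr 1
      rw [mul_assoc _ (star g), mul_assoc g (wq s L), ← mul_assoc (star g), star_mul_self,
        coe_mul_eq_smul, mul_smul_comm]
      simp only [mul_assoc]
  obtain ⟨l, hl⟩ := h1 L
  have h3 : (g * wq s L * star g).im = g * (wq s L).im * star g := by
    ext <;> simp <;> ring
  rw [hl, im_smul, h3, normSq_smul, normSq_smul, map_mul, map_mul, map_mul, map_mul]
  have := mul_le_mul_of_nonneg_left (hC L hL hr)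
    (show 0 ≤ l ^ 2 * normSq g * normSq (star g) from
      mul_nonneg (mul_nonneg (sq_nonneg _) normSq_nonneg) normSq_nonneg)
  linarith

lemma rot1 (v : ℍ[ℝ]) : ∃ g : ℍ[ℝ], g ≠ 0 ∧ (star g * v * g).imJ = 0 ∧ (star g * v * g).imK = 0 := by
  by_cases h : v.imJ = 0 ∧ v.imK = 0
  · exact ⟨1, one_ne_zero, by simpa using h⟩
  set r := √(v.imI ^ 2 + v.imJ ^ 2 + v.imK ^ 2)
  have hr : r ^ 2 = v.imI ^ 2 + v.imJ ^ 2 + v.imK ^ 2 := sq_sqrt (by positivity)
  refine ⟨⟨0, v.imI + r, v.imJ, v.imK⟩, fun h0 => h ⟨congrArg QuaternionAlgebra.imJ h0,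
    congrArg QuaternionAlgebra.imK h0⟩, ?_, ?_⟩
  · simp
    linear_combination (-v.imJ) * hr
  · simp
    linear_combination (-v.imK) * hr

lemma rot2 (v w : ℍ[ℝ]) (h1 : w.imJ = 0) (h2 : w.imK = 0) : ∃ g : ℍ[ℝ], g ≠ 0 ∧
    (star g * w * g).imJ = 0 ∧ (star g * w * g).imK = 0 ∧ (star g * v * g).imK = 0 := by
  by_cases h : v.imK = 0
  · exact ⟨1, one_ne_zero, by simp [h, h1, h2]⟩
  set r := √(v.imJ ^ 2 + v.imK ^ 2)
  have hr : r ^ 2 = v.imJ ^ 2 + v.imK ^ 2 := sq_sqrt (by positivity)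
  refine ⟨⟨0, 0, v.imJ + r, v.imK⟩, fun h0 => h (congrArg QuaternionAlgebra.imK h0), ?_, ?_, ?_⟩
  · simp [h1, h2]
  · simp [h1, h2]
  · simp
    linear_combination (-v.imK) * hr

lemma rot3 (v w : ℍ[ℝ]) : ∃ g : ℍ[ℝ], g.re ≠ 0 ∧
    (star g * w * g).imJ = 0 ∧ (star g * w * g).imK = 0 ∧ (star g * v * g).imK = 0 := by
  obtain ⟨g1, a1, a2, a3⟩ := rot1 w
  obtain ⟨g2, b1, b2, b3, b4⟩ := rot2 (star g1 * v * g1) _ a2 a3
  have e : ∀ x g1 g2 : ℍ[ℝ], star g2 * (star g1 * x * g1) * g2 = star (g1 * g2) * x * (g1 * g2) :=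
    fun x g1 g2 => by simp only [star_mul, mul_assoc]
  rw [e] at b2 b3 b4
  have hg := mul_ne_zero a1 b1
  generalize g1 * g2 = g at b2 b3 b4 hg
  by_cases c0 : g.re = 0
  · by_cases c1 : g.imI = 0
    · by_cases c2 : g.imJ = 0
      · have c3 : g.imK ≠ 0 := fun c3 => hg (by ext <;> simp [c0, c1, c2, c3])
        refine ⟨g * ⟨0, 0, 0, 1⟩, by simpa using c3, ?_⟩
        rw [← e w g, ← e v g]
        generalize star g * w * g = a at b2 b3
        generalize star g * v * g = b at b4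
        simp [b2, b3, b4]
      · refine ⟨g * ⟨0, 0, 1, 0⟩, by simpa using c2, ?_⟩
        rw [← e w g, ← e v g]
        generalize star g * w * g = a at b2 b3
        generalize star g * v * g = b at b4
        simp [b2, b3, b4]
    · refine ⟨g * ⟨0, 1, 0, 0⟩, by simpa using c1, ?_⟩
      rw [← e w g, ← e v g]
      generalize star g * w * g = a at b2 b3
      generalize star g * v * g = b at b4
      simp [b2, b3, b4]
  · exact ⟨g, c0, b2, b3, b4⟩

def tq (v : Fin 4 → ℝ) : ℍ[ℝ] := ⟨v 0, v 1, v 2, v 3⟩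

def qt (x : ℍ[ℝ]) : Fin 4 → ℝ := ![x.re, x.imI, x.imJ, x.imK]

@[simp] lemma tq_qt (x : ℍ[ℝ]) : tq (qt x) = x := by ext <;> simp [tq, qt]

@[simp] lemma qt_tq (v : Fin 4 → ℝ) : qt (tq v) = v := by
  funext c; fin_cases c <;> simp [tq, qt]

def uq {k : ℕ} (e : Fin (k + 2) → Fin 4 → ℝ) : ℍ[ℝ] := ⟨1, e 0 2, e 0 3, e 1 3⟩

noncomputable def theta {k : ℕ} (e : Fin (k + 2) → Fin 4 → ℝ) : Fin (k + 2) → Fin 4 → ℝ :=
  fun i => qt (e i 0 • (uq e * sl e i * star (uq e)))

lemma theta_diff {k : ℕ} : Differentiable ℝ (theta (k := k)) := by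
  refine differentiable_pi.mpr fun i => differentiable_pi.mpr fun c => ?_
  by_cases h2 : mask i 2 <;> by_cases h3 : mask i 3 <;> fin_cases c <;>
    simp [theta, qt, uq, sl, h2, h3] <;> fun_prop

lemma theta_surj {k : ℕ} (x : Fin (k + 2) → Fin 4 → ℝ) (hx : ∀ i, x i 0 ≠ 0) :
    ∃ e, theta e = x := by
  obtain ⟨g, hg, a1, a2, a3⟩ := rot3 (tq (x 1)) (tq (x 0))
  have hN : normSq g ≠ 0 := normSq_ne_zero.mpr fun h => hg (by simp [h])
  let y : Fin (k + 2) → ℍ[ℝ] := fun i => star g * tq (x i) * g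
  have hy : ∀ i, (y i).re = normSq g * x i 0 := by
    intro i; simp [y, tq, normSq_def']; ring
  have hy0 : ∀ i, (y i).re ≠ 0 := fun i => by rw [hy]; exact mul_ne_zero hN (hx i)
  let e : Fin (k + 2) → Fin 4 → ℝ := fun i =>
    ![g.re ^ 2 * (y i).re / normSq g ^ 2, (y i).imI / (y i).re,
      if (i : ℕ) = 0 then g.imI / g.re else (y i).imJ / (y i).re,
      if (i : ℕ) = 0 then g.imJ / g.re else if (i : ℕ) = 1 then g.imK / g.re
        else (y i).imK / (y i).re]
  have hu : uq e = (g.re)⁻¹ • g := by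
    ext <;> simp [uq, e, hg, div_eq_inv_mul]
  have hs : ∀ i, sl e i = ((y i).re)⁻¹ • y i := by
    intro i
    ext
    · simp [sl, hy0 i]
    · simp [sl, e, div_eq_inv_mul]
    · by_cases h : (i : ℕ) = 0
      · obtain rfl : i = 0 := Fin.ext h
        have : (y 0).imJ = 0 := a1
        simp [sl, mask, this]
      · have h0 : i ≠ 0 := fun h0 => h (by simp [h0])
        simp [sl, e, mask, h, h0, div_eq_inv_mul]
    · by_cases h : (i : ℕ) = 0
      · obtain rfl : i = 0 := Fin.ext h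
        have : (y 0).imK = 0 := a2
        simp [sl, mask, this]
      · by_cases h' : (i : ℕ) = 1
        · obtain rfl : i = 1 := Fin.ext h'
          have : (y 1).imK = 0 := a3
          simp [sl, mask, this]
        · have h0 : i ≠ 0 := fun h0 => h (by simp [h0])
          simp [sl, e, mask, h, h', h0, div_eq_inv_mul]
  refine ⟨e, funext fun i => ?_⟩
  have h1 : g * y i * star g = (normSq g ^ 2) • tq (x i) := by
    have : g * y i * star g = (g * star g) * tq (x i) * (g * star g) := by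
      simp only [y, mul_assoc]
    rw [this, self_mul_star, coe_mul_eq_smul, mul_coe_eq_smul, smul_smul, sq]
  have h2 : e i 0 = g.re ^ 2 * (y i).re / normSq g ^ 2 := rfl
  unfold theta
  rw [hu, hs, Quaternion.star_smul, smul_mul_smul_comm, smul_mul_smul_comm, h1, smul_smul, smul_smul, h2]
  have := hy0 i
  rw [show g.re ^ 2 * (y i).re / normSq g ^ 2 * (g.re⁻¹ * (y i).re⁻¹ * g.re⁻¹) * normSq g ^ 2
    = 1 by field_simp, one_smul, qt_tq]

theorem dio_full (k : ℕ) : ∀ᵐ x : Fin (k + 2) → Fin 4 → ℝ,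
    Dio (2 - (1 / 2 : ℝ) ^ (3 * k + 3)) (fun i => tq (x i)) ∧ ∀ i, x i 0 ≠ 0 := by
  have h1 := addHaar_image_eq_zero_of_differentiableOn_of_addHaar_eq_zero volume
    (theta_diff (k := k)).differentiableOn (ae_iff.mp (dio_slice k))
  have h2 : ∀ᵐ x : Fin (k + 2) → Fin 4 → ℝ, ∀ i, x i 0 ≠ 0 := by
    refine ae_all_iff.mpr fun i => ?_
    refine ae_comp_surj (p := fun t : ℝ => t ≠ 0)
      ((LinearMap.proj (R := ℝ) (φ := fun _ : Fin 4 => ℝ) 0).comp
        (LinearMap.proj (R := ℝ) (φ := fun _ : Fin (k + 2) => Fin 4 → ℝ) i))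
      (fun t => ⟨fun _ _ => t, rfl⟩) ?_
    simp [ae_iff]
  filter_upwards [measure_eq_zero_iff_ae_notMem.mp h1, h2] with x h1 h2
  refine ⟨?_, h2⟩
  obtain ⟨e, rfl⟩ := theta_surj x h2
  have h3 : Dio (2 - (1 / 2 : ℝ) ^ (3 * k + 3)) (sl e) := by
    by_contra hc
    exact h1 ⟨e, hc, rfl⟩
  refine h3.conj (g := uq e) (fun h => ?_) (fun i => e i 0) fun i => by simp [theta]
  simpa [uq] using congrArg QuaternionAlgebra.re h

end Pool.Agent.MP_9bb777_an
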