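import Pool.Agent.MP_9bb777_an.Nrm

/-! Gelfond inequality for the heights of the factors of a polynomial. -/

namespace Pool.Agent.MP_9bb777_an

open Finset

lemma exists_mahler_le (p : Polynomial ℂ) : ∃ z : ℂ, ‖z‖ ≤ 1 ∧ p.mahlerMeasure ≤ ‖p.eval z‖ := by
  by_cases hp : p = 0
  · exact ⟨0, by simp, by simp [hp]⟩
  obtain ⟨z, hz, hmax⟩ := (isCompact_sphere (0 : ℂ) 1).exists_isMaxOn
    (NormedSpace.sphere_nonempty.mpr zero_le_one)
    (f := fun z => ‖p.eval z‖) (p.continuous.norm.continuousOn)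
  refine ⟨z, by simpa using (mem_sphere_zero_iff_norm.mp hz).le, ?_⟩
  have hb : 0 < ‖p.eval z‖ := by
    rcases (norm_nonneg (p.eval z)).lt_or_eq with h | h
    · exact h
    · exfalso
      apply hp
      apply Polynomial.eq_zero_of_infinite_isRoot
      have hinf : (Metric.sphere (0 : ℂ) 1).Infinite := by
        have : Set.InjOn (circleMap 0 1) (Set.Ico 0 1) := by
          intro a ha b hb h
          exact injOn_circleMap_of_abs_sub_le' (a := 0) (b := 1) one_ne_zero
            (by linarith [Real.pi_gt_three]) ha hb h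
        refine ((Set.Ico_infinite (zero_lt_one' ℝ)).image this).mono ?_
        rintro _ ⟨t, _, rfl⟩
        simp
      refine hinf.mono fun w hw => ?_
      have := hmax hw
      simp only [Set.mem_ofPred_eq] at this ⊢
      rw [← h] at this
      exact norm_le_zero_iff.mp this
  set b := ‖p.eval z‖ with hbdef
  have hb' : ((b⁻¹ : ℝ) : ℂ) ≠ 0 := by exact_mod_cast (inv_pos.mpr hb).ne'
  have h1 : (Polynomial.C ((b⁻¹ : ℝ) : ℂ) * p).mahlerMeasure ≤ 1 := by
    have hne : Polynomial.C ((b⁻¹ : ℝ) : ℂ) * p ≠ 0 := mul_ne_zero (Polynomial.C_ne_zero.mpr hb') hp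
    rw [Polynomial.mahlerMeasure, if_pos hne, Real.exp_le_one_iff, Polynomial.logMahlerMeasure_def]
    refine Real.circleAverage_mono_on_of_le_circle
      (Polynomial.intervalIntegrable_mahlerMeasure _) fun w hw => ?_
    refine Real.log_nonpos (norm_nonneg _) ?_
    rw [abs_one] at hw
    have : ‖p.eval w‖ ≤ b := hmax hw
    rw [Polynomial.eval_mul, Polynomial.eval_C, norm_mul, Complex.norm_real, Real.norm_eq_abs,
      abs_of_pos (inv_pos.mpr hb), inv_mul_le_iff₀ hb, mul_one]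
    exact this
  rw [Polynomial.mahlerMeasure_mul, Polynomial.mahlerMeasure_const, Complex.norm_real,
    Real.norm_eq_abs, abs_of_pos (inv_pos.mpr hb), inv_mul_le_iff₀ hb, mul_one] at h1
  exact h1

lemma coeff_le_mahler (p : Polynomial ℂ) (k d : ℕ) (hd : p.natDegree ≤ d) :
    ‖p.coeff k‖ ≤ 2 ^ d * p.mahlerMeasure := by
  refine (Polynomial.norm_coeff_le_choose_mul_mahlerMeasure k p).trans ?_
  refine mul_le_mul_of_nonneg_right ?_ p.mahlerMeasure_nonneg
  have : p.natDegree.choose k ≤ 2 ^ d :=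
    (Nat.choose_le_two_pow _ _).trans (Nat.pow_le_pow_right (by norm_num) hd)
  exact_mod_cast this

lemma mahler_prod {ι : Type} (s : Finset ι) (p : ι → Polynomial ℂ) :
    (∏ i ∈ s, p i).mahlerMeasure = ∏ i ∈ s, (p i).mahlerMeasure := by
  classical
  induction s using Finset.induction_on with
  | empty => simp
  | insert a s ha ih => rw [Finset.prod_insert ha, Finset.prod_insert ha,
      Polynomial.mahlerMeasure_mul, ih]

open MvPolynomial in
lemma gelfond_pt (q : ℕ) {ι : Type} (s : Finset ι) : ∀ (Q : ι → MvPolynomial (Fin q) ℂ),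
    ∃ x : Fin q → ℂ, (∀ v, ‖x v‖ ≤ 1) ∧
      ∏ i ∈ s, nrm (Q i) ≤ 4 ^ (q * ∑ i ∈ s, (Q i).totalDegree) * ∏ i ∈ s, ‖eval x (Q i)‖ := by
  induction q with
  | zero =>
    intro Q
    refine ⟨fun _ => 0, fun v => by simp, ?_⟩
    simp only [zero_mul, pow_zero, one_mul]
    refine le_of_eq (Finset.prod_congr rfl fun i _ => ?_)
    rw [eq_C_of_isEmpty (Q i), nrm_C, eval_C]
  | succ q ih =>
    intro Q
    have hk : ∀ i, ∃ k, nrm (Q i) ≤ 2 ^ (Q i).totalDegree *
        nrm ((finSuccEquiv ℂ q (Q i)).coeff k) := by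
      intro i
      set D := (Q i).totalDegree
      obtain ⟨k, _, hk⟩ := Finset.exists_max_image (range (D + 1))
        (fun k => nrm ((finSuccEquiv ℂ q (Q i)).coeff k)) ⟨0, by simp⟩
      refine ⟨k, ?_⟩
      rw [← nrm_finSucc (Q i) (D + 1) (Nat.lt_succ_of_le (natDegree_le_deg _))]
      refine (Finset.sum_le_card_nsmul _ _ _ hk).trans ?_
      rw [Finset.card_range, nsmul_eq_mul]
      refine mul_le_mul_of_nonneg_right ?_ (nrm_nonneg _)
      have : D + 1 ≤ 2 ^ D := Nat.lt_two_pow_self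
      exact_mod_cast this
    choose k hk using hk
    obtain ⟨y, hy, h1⟩ := ih fun i => (finSuccEquiv ℂ q (Q i)).coeff (k i)
    set p : ι → Polynomial ℂ := fun i => Polynomial.map (eval y) (finSuccEquiv ℂ q (Q i)) with hp
    obtain ⟨z, hz, h2⟩ := exists_mahler_le (∏ i ∈ s, p i)
    refine ⟨Fin.cons z y, fun v => Fin.cases (by simpa using hz) (fun j => by simpa using hy j) v, ?_⟩
    set S := ∑ i ∈ s, (Q i).totalDegree with hS
    have h3 : ∏ i ∈ s, ‖eval y ((finSuccEquiv ℂ q (Q i)).coeff (k i))‖ ≤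
        2 ^ S * ∏ i ∈ s, ‖eval (Fin.cons z y : Fin (q + 1) → ℂ) (Q i)‖ := by
      calc ∏ i ∈ s, ‖eval y ((finSuccEquiv ℂ q (Q i)).coeff (k i))‖
          ≤ ∏ i ∈ s, (2 ^ (Q i).totalDegree * (p i).mahlerMeasure) := by
            refine Finset.prod_le_prod (fun _ _ => norm_nonneg _) fun i _ => ?_
            have := coeff_le_mahler (p i) (k i) (Q i).totalDegree
              (Polynomial.natDegree_map_le.trans (natDegree_le_deg _))
            rwa [hp, Polynomial.coeff_map] at this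
        _ = 2 ^ S * (∏ i ∈ s, p i).mahlerMeasure := by
            rw [Finset.prod_mul_distrib, Finset.prod_pow_eq_pow_sum, mahler_prod]
        _ ≤ 2 ^ S * ‖(∏ i ∈ s, p i).eval z‖ := by gcongr
        _ = _ := by
            rw [Polynomial.eval_prod, norm_prod]
            congr 1
            exact Finset.prod_congr rfl fun i _ => by rw [eval_eq_eval_mv_eval']
    have h4 : (4 : ℝ) ^ (q * ∑ i ∈ s, ((finSuccEquiv ℂ q (Q i)).coeff (k i)).totalDegree) ≤
        4 ^ (q * S) :=
      pow_le_pow_right₀ (by norm_num)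
        (Nat.mul_le_mul_left _ (Finset.sum_le_sum fun i _ => deg_coeff_le _ _))
    have h5 : 0 ≤ ∏ i ∈ s, ‖eval y ((finSuccEquiv ℂ q (Q i)).coeff (k i))‖ :=
      Finset.prod_nonneg fun _ _ => norm_nonneg _
    calc ∏ i ∈ s, nrm (Q i)
        ≤ ∏ i ∈ s, (2 ^ (Q i).totalDegree * nrm ((finSuccEquiv ℂ q (Q i)).coeff (k i))) :=
          Finset.prod_le_prod (fun _ _ => nrm_nonneg _) fun i _ => hk i
      _ = 2 ^ S * ∏ i ∈ s, nrm ((finSuccEquiv ℂ q (Q i)).coeff (k i)) := by
          rw [Finset.prod_mul_distrib, Finset.prod_pow_eq_pow_sum]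
      _ ≤ 2 ^ S * (4 ^ (q * S) *
          (2 ^ S * ∏ i ∈ s, ‖eval (Fin.cons z y : Fin (q + 1) → ℂ) (Q i)‖)) := by
          refine mul_le_mul_of_nonneg_left (h1.trans ?_) (by positivity)
          exact mul_le_mul h4 h3 h5 (by positivity)
      _ = _ := by
          rw [show (4 : ℝ) ^ ((q + 1) * S) = 2 ^ S * 4 ^ (q * S) * 2 ^ S by
            rw [add_mul, one_mul, pow_add, show (4 : ℝ) ^ S = 2 ^ S * 2 ^ S by
              rw [← mul_pow]; norm_num]; ring]
          ring

open MvPolynomial in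
lemma gelfond (q : ℕ) {ι : Type} (s : Finset ι) (Q : ι → MvPolynomial (Fin q) ℤ) :
    ∏ i ∈ s, nrm (Q i) ≤ 4 ^ (q * ∑ i ∈ s, (Q i).totalDegree) * nrm (∏ i ∈ s, Q i) := by
  have hf : ∀ r : ℤ, ‖(Int.castRingHom ℂ) r‖ = ‖r‖ := fun r => by simp [Int.norm_eq_abs]
  obtain ⟨x, hx, h⟩ := gelfond_pt q s fun i => map (Int.castRingHom ℂ) (Q i)
  simp only [nrm_map _ hf] at h
  refine h.trans (mul_le_mul ?_ ?_ (Finset.prod_nonneg fun _ _ => norm_nonneg _) (by positivity))
  · exact pow_le_pow_right₀ (by norm_num)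
      (Nat.mul_le_mul_left _ (Finset.sum_le_sum fun i _ =>
        Finset.sup_mono (support_map_subset _ _)))
  · rw [← norm_prod, ← map_prod, ← map_prod, eval_map]
    exact norm_eval₂_le _ (fun r => (hf r).le) x hx _

end Pool.Agent.MP_9bb777_an
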