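import Pool.Agent.MP_9bb777_an.Full

/-! Transfer to Haar measure on tuples in SU(2). -/

namespace Pool.Agent.MP_9bb777_an

open Quaternion Real MeasureTheory Filter

lemma su2_sc : SecondCountableTopology (Matrix.specialUnitaryGroup (Fin 2) ℂ) :=
  have : SecondCountableTopology (Matrix (Fin 2) (Fin 2) ℂ) :=
    inferInstanceAs (SecondCountableTopology (Fin 2 → Fin 2 → ℂ))
  TopologicalSpace.Subtype.secondCountableTopology _

noncomputable def mt : ℍ[ℝ] →+* Matrix (Fin 2) (Fin 2) ℂ := qm.comp (qmap Complex.ofRealHom)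

lemma mt_apply (x : ℍ[ℝ]) : mt x = !![(x.re : ℂ) + Complex.I * x.imI, x.imJ + Complex.I * x.imK;
    -x.imJ + Complex.I * x.imK, x.re - Complex.I * x.imI] := rfl

lemma mt_star (x : ℍ[ℝ]) : mt (star x) = star (mt x) := by
  ext i j
  fin_cases i <;> fin_cases j <;> simp [mt_apply, Matrix.star_apply, sub_eq_add_neg]

lemma mt_det (x : ℍ[ℝ]) : (mt x).det = (normSq x : ℝ) := by
  rw [mt_apply, Matrix.det_fin_two_of, normSq_def']
  push_cast
  linear_combination (-(x.imI : ℂ) ^ 2 - (x.imK : ℂ) ^ 2) * Complex.I_sq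

lemma mt_trace (x : ℍ[ℝ]) : (mt x).trace = (2 * x.re : ℝ) := by
  rw [mt_apply, Matrix.trace_fin_two_of]; push_cast; ring

lemma mt_mem {x : ℍ[ℝ]} (h : normSq x = 1) : mt x ∈ Matrix.specialUnitaryGroup (Fin 2) ℂ := by
  refine ⟨Matrix.mem_unitaryGroup_iff.mpr ?_, ?_⟩
  · rw [← mt_star, ← map_mul, self_mul_star, h]; simp
  · change (mt x).det = 1
    rw [mt_det, h]; simp

noncomputable def qu (g : Matrix.specialUnitaryGroup (Fin 2) ℂ) : ℍ[ℝ] :=
  ⟨(g.1 0 0).re, (g.1 0 0).im, (g.1 0 1).re, (g.1 0 1).im⟩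

lemma mt_qu (g : Matrix.specialUnitaryGroup (Fin 2) ℂ) : mt (qu g) = g.1 := by
  have h1 : star g.1 * g.1 = 1 := Matrix.mem_unitaryGroup_iff'.mp g.2.1
  have h2 : g.1.det = 1 := g.2.2
  have h3 : star g.1 = g.1.adjugate := by
    calc star g.1 = star g.1 * (g.1 * g.1.adjugate) := by
          rw [Matrix.mul_adjugate, h2, one_smul, mul_one]
      _ = g.1.adjugate := by rw [← mul_assoc, h1, one_mul]
  rw [Matrix.adjugate_fin_two] at h3
  have a := congrFun (congrFun h3 0) 0
  have b := congrFun (congrFun h3 1) 0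
  simp [Matrix.star_apply] at a b
  ext i j
  fin_cases i <;> fin_cases j <;> simp [mt_apply, qu]
  · apply Complex.ext <;> simp
  · apply Complex.ext <;> simp
  · rw [← neg_neg (g.1 1 0), ← b]; apply Complex.ext <;> simp
  · rw [← a]; apply Complex.ext <;> simp

lemma normSq_qu (g : Matrix.specialUnitaryGroup (Fin 2) ℂ) : normSq (qu g) = 1 := by
  have h := mt_det (qu g)
  rw [mt_qu, show g.1.det = 1 from g.2.2] at h
  exact_mod_cast h.symm

lemma mt_inj : Function.Injective mt := mt.injective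

lemma qu_mul (g h : Matrix.specialUnitaryGroup (Fin 2) ℂ) : qu (g * h) = qu g * qu h :=
  mt_inj (by rw [map_mul, mt_qu, mt_qu, mt_qu]; rfl)

lemma lift_eq_wq {ι : Type} (a : ι → Matrix.specialUnitaryGroup (Fin 2) ℂ) (L : List (ι × Bool)) :
    qu (FreeGroup.lift a (FreeGroup.mk L)) = wq (fun i => qu (a i)) L := by
  rw [FreeGroup.lift_mk]
  induction L with
  | nil => exact mt_inj (by rw [mt_qu]; simp)
  | cons s L ih =>
    rw [List.map_cons, List.prod_cons, qu_mul, ih, wq_cons]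
    congr 1
    cases s.2
    · exact mt_inj (by simp only [cond_false]; rw [mt_star, mt_qu, mt_qu]; rfl)
    · rfl

lemma continuous_qu : Continuous qu := by
  have h : ∀ i j, Continuous fun g : Matrix.specialUnitaryGroup (Fin 2) ℂ => g.1 i j :=
    fun i j => continuous_subtype_val.matrix_elem i j
  have : qu = fun g => Quaternion.linearIsometryEquivTuple.symm
      (WithLp.toLp 2 ![(g.1 0 0).re, (g.1 0 0).im, (g.1 0 1).re, (g.1 0 1).im]) := rfl
  rw [this]
  refine (LinearIsometryEquiv.continuous _).comp ((PiLp.continuous_toLp 2 _).comp ?_)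
  refine continuous_pi fun c => ?_
  fin_cases c
  exacts [Complex.continuous_re.comp (h 0 0), Complex.continuous_im.comp (h 0 0),
    Complex.continuous_re.comp (h 0 1), Complex.continuous_im.comp (h 0 1)]

lemma continuous_tq : Continuous tq := by
  have : tq = fun v => Quaternion.linearIsometryEquivTuple.symm (WithLp.toLp 2 v) := rfl
  rw [this]
  exact (LinearIsometryEquiv.continuous _).comp (PiLp.continuous_toLp 2 _)

lemma continuous_wq {X ι : Type} [TopologicalSpace X] (x : X → ι → ℍ[ℝ])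
    (h : ∀ i, Continuous fun p => x p i) (L : List (ι × Bool)) :
    Continuous fun p => wq (x p) L := by
  induction L with
  | nil => simpa using continuous_const
  | cons s L ih =>
    simp only [wq_cons]
    refine Continuous.mul ?_ ih
    cases s.2
    · exact (h _).star
    · exact h _

lemma measurable_dio {X ι : Type} [Countable ι] [TopologicalSpace X] [MeasurableSpace X]
    [OpensMeasurableSpace X] (β : ℝ) (x : X → ι → ℍ[ℝ])
    (h : ∀ i, Continuous fun p => x p i) : MeasurableSet {p | Dio β (x p)} := by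
  have : {p | Dio β (x p)} = ⋃ C : ℕ, ⋂ L : List (ι × Bool), ⋂ _ : L ≠ [],
      ⋂ _ : FreeGroup.IsReduced L,
        {p | exp (-(C * (L.length : ℝ) ^ β)) * normSq (wq (x p) L) ≤ normSq (wq (x p) L).im} := by
    ext p
    simp only [Set.mem_ofPred_eq, Set.mem_iUnion, Set.mem_iInter]
    refine ⟨fun ⟨C, hC⟩ => ?_, fun ⟨C, hC⟩ => ⟨C, hC⟩⟩
    obtain ⟨n, hn⟩ := exists_nat_ge C
    refine ⟨n, fun L a b => le_trans ?_ (hC L a b)⟩
    refine mul_le_mul_of_nonneg_right (exp_le_exp.mpr (neg_le_neg ?_)) normSq_nonneg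
    gcongr
  rw [this]
  refine MeasurableSet.iUnion fun C => MeasurableSet.iInter fun L => MeasurableSet.iInter fun _ =>
    MeasurableSet.iInter fun _ => (isClosed_le ?_ ?_).measurableSet
  · exact continuous_const.mul (continuous_normSq.comp (continuous_wq x h L))
  · exact continuous_normSq.comp (continuous_im.comp (continuous_wq x h L))

lemma su2_top : IsTopologicalGroup (Matrix.specialUnitaryGroup (Fin 2) ℂ) where
  continuous_mul := continuous_mul
  continuous_inv := Continuous.subtype_mk continuous_subtype_val.star _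

lemma su2_compact : CompactSpace (Matrix.specialUnitaryGroup (Fin 2) ℂ) := by
  refine ⟨?_⟩
  have h := (isCompact_sphere (0 : ℍ[ℝ]) 1)
  have hn : ∀ x : Metric.sphere (0 : ℍ[ℝ]) 1, normSq x.1 = 1 := fun x => by
    rw [normSq_eq_norm_mul_self, mem_sphere_zero_iff_norm.mp x.2, one_mul]
  let f : Metric.sphere (0 : ℍ[ℝ]) 1 → Matrix.specialUnitaryGroup (Fin 2) ℂ :=
    fun x => ⟨mt x.1, mt_mem (hn x)⟩
  have hf : Continuous f := by
    refine Continuous.subtype_mk ?_ _
    refine Continuous.comp (g := mt) ?_ continuous_subtype_val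
    refine continuous_matrix fun i j => ?_
    have := @continuous_re
    have := @continuous_imI
    have := @continuous_imJ
    have := @continuous_imK
    fin_cases i <;> fin_cases j <;> simp [mt_apply] <;> fun_prop
  have hs : Function.Surjective f := fun g => ⟨⟨qu g, by
    have := normSq_qu g
    rw [normSq_eq_norm_mul_self] at this
    rw [mem_sphere_zero_iff_norm]
    nlinarith [norm_nonneg (qu g)]⟩, Subtype.ext (mt_qu g)⟩
  rw [← hs.range_eq]
  exact isCompact_range hf

theorem dio_haar (k : ℕ) [MeasurableSpace (Matrix.specialUnitaryGroup (Fin 2) ℂ)]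
    [BorelSpace (Matrix.specialUnitaryGroup (Fin 2) ℂ)]
    (μ : Measure (Fin (k + 2) → Matrix.specialUnitaryGroup (Fin 2) ℂ)) [μ.IsHaarMeasure] :
    ∀ᵐ a ∂μ, Dio (2 - (1 / 2 : ℝ) ^ (3 * k + 3)) fun i => qu (a i) := by
  have := su2_top
  have := su2_compact
  have := su2_sc
  set β := 2 - (1 / 2 : ℝ) ^ (3 * k + 3)
  have h1 : ∀ g : Fin (k + 2) → Matrix.specialUnitaryGroup (Fin 2) ℂ,
      ∀ᵐ x : Fin (k + 2) → Fin 4 → ℝ, Dio β fun i => qu (g i) * tq (x i) := by
    intro g
    let L : (Fin (k + 2) → Fin 4 → ℝ) →ₗ[ℝ] (Fin (k + 2) → Fin 4 → ℝ) :=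
      { toFun := fun x i => qt (qu (g i) * tq (x i))
        map_add' := fun x y => by
          funext i c; fin_cases c <;> simp [qt, tq] <;> ring
        map_smul' := fun r x => by
          funext i c; fin_cases c <;> simp [qt, tq] <;> ring }
    have hL : Function.Surjective L := fun y => ⟨fun i => qt (star (qu (g i)) * tq (y i)), by
      funext i
      simp only [L, LinearMap.coe_mk, AddHom.coe_mk, tq_qt]
      rw [← mul_assoc, self_mul_star, normSq_qu]
      simp⟩
    filter_upwards [ae_comp_surj L hL (dio_full k)] with x hx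
    simpa [L, β] using hx.1
  have h2 := (Measure.ae_ae_comm (μ := μ) (ν := volume) (measurable_dio β
    (fun (p : (Fin (k + 2) → Matrix.specialUnitaryGroup (Fin 2) ℂ) × (Fin (k + 2) → Fin 4 → ℝ)) i =>
      qu (p.1 i) * tq (p.2 i)) fun i =>
      (continuous_qu.comp (by fun_prop)).mul (continuous_tq.comp (by fun_prop)))).mp
    (ae_of_all _ h1)
  obtain ⟨x, hx, hx0⟩ := (h2.and (dio_full k)).exists
  have hne : ∀ i, tq (x i) ≠ 0 := fun i h => hx0.2 i (congrArg QuaternionAlgebra.re h)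
  have hn : ∀ i, normSq (‖tq (x i)‖⁻¹ • tq (x i)) = 1 := fun i => by
    have := norm_ne_zero_iff.mpr (hne i)
    rw [normSq_smul, normSq_eq_norm_mul_self]; field_simp
  let h : Fin (k + 2) → Matrix.specialUnitaryGroup (Fin 2) ℂ := fun i => ⟨_, mt_mem (hn i)⟩
  rw [ae_iff, ← measure_mul_right_null μ h]
  refine measure_mono_null (fun g hg => ?_) (ae_iff.mp hx)
  refine fun hd : Dio β (fun i => qu (g i) * tq (x i)) => hg ?_
  refine hd.conj one_ne_zero (fun i => ‖tq (x i)‖⁻¹) fun i => ?_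
  have : qu (h i) = ‖tq (x i)‖⁻¹ • tq (x i) := mt_inj (mt_qu _)
  change qu (g i * h i) = _
  rw [qu_mul, this]
  simp

theorem dio_trace (m : ℕ) (hm : 2 ≤ m) [MeasurableSpace (Matrix.specialUnitaryGroup (Fin 2) ℂ)]
    [BorelSpace (Matrix.specialUnitaryGroup (Fin 2) ℂ)]
    (μ : Measure (Fin m → Matrix.specialUnitaryGroup (Fin 2) ℂ)) [μ.IsHaarMeasure] :
    ∀ᵐ a ∂μ, ∃ C : ℝ, ∀ w : FreeGroup (Fin m), w ≠ 1 →
      exp (-(C * (w.norm : ℝ) ^ (2 - (1 / 8 : ℝ) ^ (m - 1)))) ≤
        2 - ‖(FreeGroup.lift a w).1.trace‖ := by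
  obtain ⟨k, rfl⟩ : ∃ k, m = k + 2 := ⟨m - 2, by omega⟩
  filter_upwards [dio_haar k μ] with a ⟨C, hC⟩
  refine ⟨C, fun w hw => ?_⟩
  have h := hC w.toWord (fun h => hw (FreeGroup.toWord_eq_nil_iff.mp h)) FreeGroup.isReduced_toWord
  rw [← lift_eq_wq, FreeGroup.mk_toWord, normSq_qu, mul_one] at h
  have e : (1 / 2 : ℝ) ^ (3 * k + 3) = (1 / 8 : ℝ) ^ (k + 2 - 1) := by
    rw [show 3 * k + 3 = 3 * (k + 2 - 1) by omega, pow_mul]; norm_num
  rw [e] at h
  refine h.trans ?_
  have h1 := normSq_qu (FreeGroup.lift a w)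
  rw [← mt_qu, mt_trace, Complex.norm_real, Real.norm_eq_abs, abs_mul, abs_two]
  generalize qu (FreeGroup.lift a w) = x at h1 ⊢
  rw [normSq_def'] at h1 ⊢
  change (0 : ℝ) ^ 2 + x.imI ^ 2 + x.imJ ^ 2 + x.imK ^ 2 ≤ _
  nlinarith [sq_abs x.re, sq_nonneg (|x.re| - 1)]

end Pool.Agent.MP_9bb777_an
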