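import Pool.Agent.MP_9bb777_an.Rs

/-! The metric lower bound for sparse families of irreducible polynomials. -/

namespace Pool.Agent.MP_9bb777_an

open Finset Real MvPolynomial MeasureTheory Filter

def Slow {q : ℕ} (F : ℕ → Finset (MvPolynomial (Fin q) ℤ)) : Prop :=
  (∀ T, ∀ P ∈ F T, P ≠ 0) ∧
    ∃ κ : ℝ, 0 ≤ κ ∧ ∀ T : ℕ, ∑ P ∈ F T, (1 + sz P) ≤ exp (κ * (T + 1))

def Good (q : ℕ) : Prop := ∀ F : ℕ → Finset (MvPolynomial (Fin q) ℤ), Slow F →
  ∃ C : ℝ, 0 ≤ C ∧ ∀ᵐ x : Fin q → ℝ, (∀ i, |x i| ≤ 1) →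
    ∀ᶠ T : ℕ in atTop, ∀ P ∈ F T, exp (-(C * sz P * AA q T)) ≤ ‖ev x P‖

def Irr (q : ℕ) : Prop := ∀ F : ℕ → Finset (MvPolynomial (Fin q) ℤ), Slow F →
  (∀ T, ∀ P ∈ F T, Irreducible P) →
  ∃ C : ℝ, 0 ≤ C ∧ ∀ᵐ x : Fin q → ℝ, (∀ i, |x i| ≤ 1) →
    ∀ᶠ T : ℕ in atTop, ∀ P ∈ F T, exp (-(C * (sz P * AA q T + T))) ≤ ‖ev x P‖

lemma good_zero : Good 0 := by
  intro F hF
  refine ⟨0, le_rfl, ae_of_all _ fun x _ => Eventually.of_forall fun T P hP => ?_⟩
  have h := one_le_nrm (hF.1 T P hP)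
  rw [eq_C_of_isEmpty P] at h ⊢
  rw [nrm_C] at h
  simpa [ev, Int.norm_eq_abs] using h

lemma sum_image_le' {α β : Type} [DecidableEq β] (s : Finset α) (g : α → β) (f : β → ℝ)
    (hf : ∀ b, 0 ≤ f b) : ∑ b ∈ s.image g, f b ≤ ∑ a ∈ s, f (g a) := by
  classical
  induction s using Finset.induction_on with
  | empty => simp
  | insert a s ha ih =>
    rw [Finset.image_insert, Finset.sum_insert ha]
    by_cases h : g a ∈ s.image g
    · rw [Finset.insert_eq_of_mem h]; linarith [hf (g a)]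
    · rw [Finset.sum_insert h]; linarith

lemma fibre_le {q : ℕ} (Q : MvPolynomial (Fin (q + 1)) ℤ) (y : Fin q → ℝ) (hy : ∀ i, |y i| ≤ 1)
    (C1 K T T' : ℝ) (hC1 : 0 ≤ C1) (hK : 1 ≤ K) (hT : 1 ≤ T) (hT' : 0 < T') (hTT : T' ≤ K * T)
    (hR : exp (-(C1 * sz (rs Q) * AA q T)) ≤ ‖ev y (rs Q)‖) :
    volume {z : ℝ | |z| ≤ 1 ∧ ‖ev (Fin.cons z y : Fin (q + 1) → ℝ) Q‖ <
      exp (-((8 * C1 + 2 + 2 * K + K * (3 + 8 * C1)) * (sz Q * AA (q + 1) T + T)))} ≤
      ENNReal.ofReal ((1 + sz Q) * (2 * exp (-T'))) := by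
  have hs := sz_nonneg Q
  have hA := one_le_AA q hT
  have hAB := AA_le_succ q hT
  have hsq := AA_sq q hT
  set A := AA q T
  set B := AA (q + 1) T
  set s := sz Q with hsdef
  have hsB : 0 ≤ s * B := by nlinarith
  by_cases h : (finSuccEquiv ℤ q Q).natDegree = 0
  · have : {z : ℝ | |z| ≤ 1 ∧ ‖ev (Fin.cons z y : Fin (q + 1) → ℝ) Q‖ <
      exp (-((8 * C1 + 2 + 2 * K + K * (3 + 8 * C1)) * (s * B + T)))} = ∅ := by
      refine Set.eq_empty_of_forall_notMem fun z hz => ?_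
      refine absurd hz.2 (not_lt.mpr ?_)
      have h1 : rs Q = (finSuccEquiv ℤ q Q).coeff 0 := by unfold rs; rw [if_pos h]
      have h2 : sz (rs Q) ≤ s := by rw [h1]; exact sz_coeff_le Q 0
      rw [ev_cons, Polynomial.eq_C_of_natDegree_eq_zero h, Polynomial.map_C, Polynomial.eval_C, ← h1]
      refine le_trans (exp_le_exp.mpr (neg_le_neg ?_)) hR
      have h3 : C1 * sz (rs Q) * A ≤ C1 * (s * B) := by
        rw [mul_assoc]
        exact mul_le_mul_of_nonneg_left (mul_le_mul h2 hAB (by linarith) hs) hC1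
      have h4 : C1 ≤ 8 * C1 + 2 + 2 * K + K * (3 + 8 * C1) := by nlinarith
      calc C1 * sz (rs Q) * A ≤ C1 * (s * B + T) := by nlinarith
        _ ≤ _ := mul_le_mul_of_nonneg_right h4 (by linarith)
    rw [this, measure_empty]
    exact zero_le
  · have h1 := sz_rs_le Q h
    have h2 := natDegree_le_sz Q
    have hL := log_nrm_nonneg Q
    have hLs : log (nrm Q) ≤ s := by
      have : (0 : ℝ) ≤ Q.totalDegree := Nat.cast_nonneg _
      rw [hsdef, sz]; linarith
    set d := (finSuccEquiv ℤ q Q).natDegree with hd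
    have hd1 : 1 ≤ d := Nat.one_le_iff_ne_zero.mpr h
    have hd1' : (1 : ℝ) ≤ d := by exact_mod_cast hd1
    have hR' : exp (-(8 * C1 * s * A * d)) ≤
        ‖Polynomial.resultant (Polynomial.map (ev y) (finSuccEquiv ℤ q Q))
          (Polynomial.derivative (Polynomial.map (ev y) (finSuccEquiv ℤ q Q))) d (d - 1)‖ := by
      rw [Polynomial.derivative_map, Polynomial.resultant_map_map]
      have h3 : rs Q = Polynomial.resultant (finSuccEquiv ℤ q Q)
          (Polynomial.derivative (finSuccEquiv ℤ q Q)) d (d - 1) := by unfold rs; rw [if_neg h]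
      rw [← h3]
      refine le_trans (exp_le_exp.mpr (neg_le_neg ?_)) hR
      calc C1 * sz (rs Q) * A ≤ C1 * (8 * d * s) * A := by gcongr
        _ = _ := by ring
    have hcl := cluster _ hd1 Polynomial.natDegree_map_le (log (nrm Q)) (8 * C1 * s * A * d) T' hL
      (by positivity) hT' (mahler_map_le Q y hy) hR'
    refine le_trans (measure_mono fun z hz => ?_) (hcl.trans (ENNReal.ofReal_le_ofReal ?_))
    · refine ⟨hz.1, ?_⟩
      rw [← ev_cons]
      refine hz.2.trans_le (exp_le_exp.mpr (neg_le_neg ?_))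
      have h3 : 8 * C1 * s * A * d / d = 8 * C1 * (s * A) := by field_simp
      have hKc : 1 ≤ K * (3 + 8 * C1) := by nlinarith
      have h4 : √(T' * (2 * d * log (nrm Q) + d ^ 2 + 8 * C1 * s * A * d)) ≤
          K * (3 + 8 * C1) * (s * B) := by
        refine sqrt_le_iff.mpr ⟨by positivity, ?_⟩
        have h5 : 2 * d * log (nrm Q) + d ^ 2 + 8 * C1 * s * A * d ≤ (3 + 8 * C1) * (s * s * A) := by
          have a1 : d * log (nrm Q) ≤ s * s := by gcongr
          have a2 : (d : ℝ) ^ 2 ≤ s * s := by rw [sq]; gcongr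
          have a3 : s * s ≤ s * s * A := le_mul_of_one_le_right (by positivity) hA
          have a4 : 8 * C1 * s * A * d ≤ 8 * C1 * s * A * s := by gcongr
          nlinarith
        calc T' * (2 * d * log (nrm Q) + d ^ 2 + 8 * C1 * s * A * d)
            ≤ K * T * ((3 + 8 * C1) * (s * s * A)) := by gcongr
          _ = K * (3 + 8 * C1) * (s * s * (B * B)) := by rw [hsq]; ring
          _ ≤ K * (3 + 8 * C1) * (K * (3 + 8 * C1)) * (s * s * (B * B)) := by
            refine mul_le_mul_of_nonneg_right (le_mul_of_one_le_right (by linarith) hKc) ?_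
            exact mul_nonneg (mul_self_nonneg _) (mul_self_nonneg _)
          _ = _ := by ring
      have h5 : s * A ≤ s * B := by gcongr
      have h6 : (d : ℝ) ≤ s * B := h2.trans (le_mul_of_one_le_right hs (by linarith))
      have h7 : 8 * C1 * (s * A) ≤ 8 * C1 * (s * B) := by gcongr
      have h8 : 0 ≤ K * (s * B) := by positivity
      have h9 : 0 ≤ (8 * C1 + 2 + K * (3 + 8 * C1)) * T := by positivity
      rw [h3]
      nlinarith
    · gcongr
      linarith

lemma irr_of_good {q : ℕ} (hG : Good q) : Irr (q + 1) := by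
  classical
  rintro F ⟨hF0, κ, hκ, hF⟩ hI
  have hS : Slow fun T => (F T).image rs := by
    refine ⟨fun T P hP => ?_, 2 * κ + 8, by linarith, fun T => ?_⟩
    · obtain ⟨Q, hQ, rfl⟩ := Finset.mem_image.mp hP
      exact rs_ne_zero (hI T Q hQ)
    · have h1 : ∀ P : MvPolynomial (Fin (q + 1)) ℤ, 0 ≤ 1 + sz P := fun P => by
        linarith [sz_nonneg P]
      refine (sum_image_le' _ _ (fun P => 1 + sz P) fun P => by linarith [sz_nonneg P]).trans ?_
      refine (Finset.sum_le_sum fun Q _ => sz_rs_le' Q).trans ?_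
      rw [← Finset.mul_sum]
      have h2 : ∑ Q ∈ F T, (1 + sz Q) ^ 2 ≤ (∑ Q ∈ F T, (1 + sz Q)) ^ 2 :=
        Finset.sum_sq_le_sq_sum_of_nonneg fun Q _ => h1 Q
      have h3 : (∑ Q ∈ F T, (1 + sz Q)) ^ 2 ≤ exp (κ * (T + 1)) ^ 2 :=
        pow_le_pow_left₀ (Finset.sum_nonneg fun Q _ => h1 Q) (hF T) 2
      have h4 : (8 : ℝ) ≤ exp (8 * (T + 1)) := by
        have : (0 : ℝ) ≤ T := Nat.cast_nonneg T
        linarith [add_one_le_exp (8 * ((T : ℝ) + 1))]
      calc 8 * ∑ Q ∈ F T, (1 + sz Q) ^ 2 ≤ exp (8 * (T + 1)) * exp (κ * (T + 1)) ^ 2 :=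
            mul_le_mul h4 (h2.trans h3) (by positivity) (by positivity)
        _ = _ := by rw [sq, ← exp_add, ← exp_add]; congr 1; ring
  obtain ⟨C1, hC1, hae⟩ := hG _ hS
  set K := 2 * (κ + 1) with hK
  set C := 8 * C1 + 2 + 2 * K + K * (3 + 8 * C1) with hC
  refine ⟨C, by positivity, ?_⟩
  let cube : Set (Fin q → ℝ) := {y | ∀ i, |y i| ≤ 1}
  have hcube : cube = Set.Icc (fun _ => -1) (fun _ => 1) := by
    ext y; simp [cube, abs_le, Pi.le_def, forall_and]
  have hcm : MeasurableSet cube := by rw [hcube]; exact measurableSet_Icc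
  have hcv : volume cube ≠ ⊤ := by rw [hcube]; exact isCompact_Icc.measure_lt_top.ne
  let B : ℕ → MvPolynomial (Fin (q + 1)) ℤ → Set (ℝ × (Fin q → ℝ)) := fun T Q =>
    {p | p.2 ∈ cube ∧ exp (-(C1 * sz (rs Q) * AA q T)) ≤ ‖ev p.2 (rs Q)‖ ∧
      |p.1| ≤ 1 ∧ ‖ev (Fin.cons p.1 p.2 : Fin (q + 1) → ℝ) Q‖ <
        exp (-(C * (sz Q * AA (q + 1) T + T)))}
  have hBm : ∀ T Q, MeasurableSet (B T Q) := by
    intro T Q
    have c1 : Continuous fun p : ℝ × (Fin q → ℝ) => ‖ev p.2 (rs Q)‖ :=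
      ((continuous_ev _).comp continuous_snd).norm
    have c2 : Continuous fun p : ℝ × (Fin q → ℝ) =>
        ‖ev (Fin.cons p.1 p.2 : Fin (q + 1) → ℝ) Q‖ := by
      refine ((continuous_ev Q).comp ?_).norm
      refine continuous_pi fun i => Fin.cases ?_ (fun j => ?_) i
      · simpa using continuous_fst
      · simp only [Fin.cons_succ]; fun_prop
    have c3 : Continuous fun p : ℝ × (Fin q → ℝ) => |p.1| := by fun_prop
    exact (measurable_snd hcm).inter ((measurableSet_le measurable_const c1.measurable).inter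
      ((measurableSet_le c3.measurable measurable_const).inter
        (measurableSet_lt c2.measurable measurable_const)))
  have hBv : ∀ T : ℕ, 1 ≤ T → ∀ Q, volume (B T Q) ≤
      ENNReal.ofReal ((1 + sz Q) * (2 * exp (-((κ + 1) * (T + 1))))) * volume cube := by
    intro T hT Q
    have hT' : (1 : ℝ) ≤ T := by exact_mod_cast hT
    rw [Measure.volume_eq_prod, Measure.prod_apply_symm (hBm T Q), ← lintegral_indicator_const hcm]
    refine lintegral_mono fun y => ?_
    by_cases hy : y ∈ cube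
    · rw [Set.indicator_of_mem hy]
      by_cases hR : exp (-(C1 * sz (rs Q) * AA q T)) ≤ ‖ev y (rs Q)‖
      · refine le_trans (measure_mono fun z hz => ?_)
          (fibre_le Q y hy C1 K T ((κ + 1) * (T + 1)) hC1 (by linarith) hT' (by positivity)
            (by rw [hK]; nlinarith) hR)
        exact hz.2.2
      · have : (fun z => (z, y)) ⁻¹' B T Q = ∅ :=
          Set.eq_empty_of_forall_notMem fun z hz => hR hz.2.1
        simp [this]
    · have : (fun z => (z, y)) ⁻¹' B T Q = ∅ :=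
        Set.eq_empty_of_forall_notMem fun z hz => hy hz.1
      simp [this]
  have hsum : ∑' T : ℕ, volume (⋃ Q ∈ F (T + 1), B (T + 1) Q) ≠ ⊤ := by
    have h1 : ∀ T : ℕ, volume (⋃ Q ∈ F (T + 1), B (T + 1) Q) ≤
        ENNReal.ofReal (2 * exp (-1) ^ T) * volume cube := by
      intro T
      refine (measure_biUnion_finset_le _ _).trans ?_
      refine (Finset.sum_le_sum fun Q _ => hBv (T + 1) (by omega) Q).trans ?_
      rw [← Finset.sum_mul, ← ENNReal.ofReal_sum_of_nonneg fun Q _ => by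
        have := sz_nonneg Q; positivity, ← Finset.sum_mul]
      refine mul_le_mul_left (ENNReal.ofReal_le_ofReal ?_) _
      refine (mul_le_mul_of_nonneg_right (hF (T + 1)) (by positivity)).trans ?_
      rw [mul_left_comm, ← exp_add, ← exp_nat_mul]
      refine mul_le_mul_of_nonneg_left (exp_le_exp.mpr ?_) (by norm_num)
      push_cast
      nlinarith
    refine ne_top_of_le_ne_top ?_ (ENNReal.tsum_le_tsum h1)
    rw [ENNReal.tsum_mul_right]
    refine ENNReal.mul_ne_top ?_ hcv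
    exact ((summable_geometric_of_lt_one (exp_pos _).le
      (exp_lt_one_iff.mpr (by norm_num))).mul_left 2).tsum_ofReal_ne_top
  have h1 := ae_eventually_notMem hsum
  have h2 : ∀ᵐ p : ℝ × (Fin q → ℝ), (∀ i, |p.2 i| ≤ 1) → ∀ᶠ T : ℕ in atTop,
      ∀ P ∈ (F T).image rs, exp (-(C1 * sz P * AA q T)) ≤ ‖ev p.2 P‖ :=
    Measure.quasiMeasurePreserving_snd.ae hae
  have h3 := (volume_preserving_piFinSuccAbove (fun _ : Fin (q + 1) => ℝ) 0).quasiMeasurePreserving.ae
    (h1.and h2)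
  filter_upwards [h3] with x hx hx1
  obtain ⟨ha, hb⟩ := hx
  have hb' := hb fun i => hx1 _
  obtain ⟨N, hN⟩ := eventually_atTop.mp ha
  filter_upwards [hb', eventually_ge_atTop (N + 1)] with T hT hTN P hP
  obtain ⟨T, rfl⟩ : ∃ T', T = T' + 1 := ⟨T - 1, by omega⟩
  by_contra hc
  refine hN T (by omega) (Set.mem_biUnion hP ⟨fun i => hx1 _,
    hT _ (Finset.mem_image_of_mem _ hP), hx1 _, ?_⟩)
  have : (Fin.cons (x 0) fun j => x (Fin.succAbove 0 j) : Fin (q + 1) → ℝ) = x := by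
    funext i
    refine Fin.cases ?_ (fun j => ?_) i <;> simp
  change ‖ev (Fin.cons (x 0) fun j => x (Fin.succAbove 0 j) : Fin (q + 1) → ℝ) P‖ < _
  rw [this]
  exact not_le.mp hc

end Pool.Agent.MP_9bb777_an
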