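import Pool.Agent.MP_9bb777_an.Irr

/-! The metric lower bound for sparse families of integer polynomials. -/

namespace Pool.Agent.MP_9bb777_an

open Finset Real MvPolynomial MeasureTheory Filter

lemma deg_prod_eq {σ ι : Type} (s : Finset ι) (Q : ι → MvPolynomial σ ℤ) (h : ∀ i, Q i ≠ 0) :
    (∏ i ∈ s, Q i).totalDegree = ∑ i ∈ s, (Q i).totalDegree := by
  classical
  induction s using Finset.induction_on with
  | empty => simp
  | insert a s ha ih =>
    rw [Finset.prod_insert ha, Finset.sum_insert ha,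
      totalDegree_mul_of_isDomain (h a) (Finset.prod_ne_zero_iff.mpr fun i _ => h i), ih]

lemma exists_fac {q : ℕ} (P : MvPolynomial (Fin q) ℤ) :
    ∃ (n : ℕ) (Q : Fin n → MvPolynomial (Fin q) ℤ), P ≠ 0 → (∀ i, Irreducible (Q i)) ∧
      (∀ x, ‖ev x P‖ = ∏ i, ‖ev x (Q i)‖) ∧ ∑ i, sz (Q i) ≤ (1 + 2 * q) * sz P := by
  by_cases hP : P = 0
  · exact ⟨0, Fin.elim0, fun h => absurd hP h⟩
  obtain ⟨f, hf, u, hu⟩ := WfDvdMonoid.exists_factors P hP
  obtain ⟨l, rfl⟩ := Quotient.exists_rep f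
  have hirr : ∀ i, Irreducible (l.get i) := fun i => hf _ (by simp)
  have hl : ∏ i, l.get i = l.prod := by simp
  refine ⟨l.length, l.get, fun _ => ⟨hirr, ?_⟩⟩
  obtain ⟨c, hc, hcu⟩ := isUnit_iff_eq_C_of_isReduced.mp u.isUnit
  have hu' : (∏ i, l.get i) * C c = P := by rw [hl, ← hcu]; simpa using hu
  have hP' : P = ∏ i, l.get i ∨ P = -∏ i, l.get i := by
    rcases Int.isUnit_iff.mp hc with h | h
    · left; rw [← hu', h]; simp
    · right; rw [← hu', h]; simp
  have h1 : nrm P = nrm (∏ i, l.get i) := by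
    rcases hP' with h | h
    · rw [← h]
    · rw [h, nrm_neg]
  have h2 : P.totalDegree = ∑ i, (l.get i).totalDegree := by
    rw [← deg_prod_eq _ _ fun i => (hirr i).ne_zero]
    rcases hP' with h | h
    · rw [← h]
    · rw [h, totalDegree_neg]
  refine ⟨fun x => ?_, ?_⟩
  · rw [← norm_prod, ← map_prod]
    rcases hP' with h | h
    · rw [← h]
    · rw [h, map_neg, norm_neg]
  · have h3 := gelfond q Finset.univ l.get
    rw [← h1, ← h2] at h3
    have hpos : ∀ i, 0 < nrm (l.get i) := fun i => zero_lt_one.trans_le (one_le_nrm (hirr i).ne_zero)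
    have hPpos : 0 < nrm P := zero_lt_one.trans_le (one_le_nrm hP)
    have h4 := log_le_log (Finset.prod_pos fun i _ => hpos i) h3
    rw [log_prod (fun i _ => (hpos i).ne'), log_mul (by positivity) hPpos.ne', log_pow] at h4
    have h5 : log 4 ≤ 2 := by
      rw [show (4 : ℝ) = 2 ^ 2 by norm_num, log_pow]
      have := log_two_lt_d9
      push_cast; linarith
    have h6 : ((q * P.totalDegree : ℕ) : ℝ) * log 4 ≤ (q * P.totalDegree : ℕ) * 2 := by gcongr
    have h7 : (∑ i, ((l.get i).totalDegree : ℝ)) = P.totalDegree := by rw [h2]; push_cast; rfl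
    have h8 : 0 ≤ (q : ℝ) * log (nrm P) := mul_nonneg (Nat.cast_nonneg _) (log_nrm_nonneg P)
    unfold sz
    rw [Finset.sum_add_distrib, h7]
    push_cast at h6 h4
    nlinarith

lemma half_le_sz {q : ℕ} {Q : MvPolynomial (Fin q) ℤ} (hQ : Irreducible Q) : 1 / 2 ≤ sz Q := by
  have h0 := log_nrm_nonneg Q
  unfold sz
  by_cases h : Q.totalDegree = 0
  · have h1 := totalDegree_eq_zero_iff_eq_C.mp h
    have h2 : (2 : ℝ) ≤ nrm Q := by
      rw [h1, nrm_C, Int.norm_eq_abs]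
      have a1 : coeff 0 Q ≠ 0 := fun h0 => hQ.ne_zero (by rw [h1, h0, C_0])
      have a2 : ¬IsUnit (coeff 0 Q) := fun hu => hQ.not_isUnit (by rw [h1]; exact hu.map C)
      rw [Int.isUnit_iff] at a2
      have : (2 : ℤ) ≤ |coeff 0 Q| := by
        rcases abs_cases (coeff 0 Q) with a | a <;> omega
      exact_mod_cast this
    have h3 := log_le_log (by norm_num) h2
    have := log_two_gt_d9
    rw [h]; push_cast; linarith
  · have : (1 : ℝ) ≤ Q.totalDegree := by exact_mod_cast Nat.one_le_iff_ne_zero.mpr h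
    linarith

noncomputable def box (q n : ℕ) : Finset (MvPolynomial (Fin q) ℤ) := by
  classical
  exact (Fintype.piFinset fun _ : Fin q → Fin (n + 1) => Finset.Icc (-(3 : ℤ) ^ n) (3 ^ n)).image
    fun c => ∑ m : Fin q → Fin (n + 1),
      monomial (Finsupp.equivFunOnFinite.symm fun i => (m i : ℕ)) (c m)

lemma card_box (q n : ℕ) : ((box q n).card : ℝ) ≤ exp (2 * (n + 1) ^ (q + 1)) := by
  classical
  have h1 : (box q n).card ≤ (2 * 3 ^ n + 1) ^ ((n + 1) ^ q) := by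
    unfold box
    refine Finset.card_image_le.trans ?_
    rw [Fintype.card_piFinset]
    have : ((3 : ℤ) ^ n + 1 - -3 ^ n).toNat = 2 * 3 ^ n + 1 := by
      rw [show (3 : ℤ) ^ n + 1 - -3 ^ n = ((2 * 3 ^ n + 1 : ℕ) : ℤ) by push_cast; ring,
        Int.toNat_natCast]
    simp only [Int.card_Icc, this]
    simp
  have h2 : ((box q n).card : ℝ) ≤ (2 * 3 ^ n + 1) ^ ((n + 1) ^ q) := by exact_mod_cast h1
  refine h2.trans ?_
  have h3 : (3 : ℝ) ≤ exp 2 := by linarith [add_one_le_exp (2 : ℝ)]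
  have h4 : (2 * 3 ^ n + 1 : ℝ) ≤ exp 2 ^ (n + 1) := by
    have : (1 : ℝ) ≤ 3 ^ n := one_le_pow₀ (by norm_num)
    calc (2 * 3 ^ n + 1 : ℝ) ≤ 3 ^ (n + 1) := by rw [pow_succ]; linarith
      _ ≤ _ := by gcongr
  calc (2 * 3 ^ n + 1 : ℝ) ^ ((n + 1) ^ q) ≤ (exp 2 ^ (n + 1)) ^ ((n + 1) ^ q) := by gcongr
    _ = _ := by rw [← pow_mul, ← exp_nat_mul]; congr 1; push_cast; ring

lemma mem_box {q n : ℕ} (P : MvPolynomial (Fin q) ℤ) (h : sz P ≤ n) : P ∈ box q n := by
  classical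
  have h0 := log_nrm_nonneg P
  have hD : P.totalDegree ≤ n := by
    have : (P.totalDegree : ℝ) ≤ n := by unfold sz at h; linarith
    exact_mod_cast this
  have hH : nrm P ≤ 3 ^ n := by
    refine (nrm_le_exp P).trans ?_
    have h1 : log (nrm P) ≤ n * 1 := by
      have : (0 : ℝ) ≤ P.totalDegree := Nat.cast_nonneg _
      unfold sz at h; linarith
    refine (exp_le_exp.mpr h1).trans ?_
    rw [exp_nat_mul]
    gcongr
    linarith [exp_one_lt_d9]
  unfold box
  refine Finset.mem_image.mpr ⟨fun m => coeff (Finsupp.equivFunOnFinite.symm fun i => (m i : ℕ)) P,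
    ?_, ?_⟩
  · refine Fintype.mem_piFinset.mpr fun m => Finset.mem_Icc.mpr (abs_le.mp ?_)
    have := (coeff_le_nrm P (Finsupp.equivFunOnFinite.symm fun i => (m i : ℕ))).trans hH
    rw [Int.norm_eq_abs] at this
    exact_mod_cast this
  · ext k
    rw [coeff_sum]
    simp only [coeff_monomial]
    by_cases hk : ∀ i, k i < n + 1
    · rw [Finset.sum_eq_single (fun i => ⟨k i, hk i⟩)]
      · simp
      · intro m _ hm
        rw [if_neg]
        intro h
        apply hm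
        funext i
        apply Fin.ext
        simp [← h]
      · simp
    · have h1 : coeff k P = 0 := by
        by_contra h1
        apply hk
        intro i
        have := degreeOf_le_iff.mp (degreeOf_le_totalDegree P i) k (mem_support_iff.mpr h1)
        omega
      rw [h1]
      refine Finset.sum_eq_zero fun m _ => if_neg fun h => hk fun i => ?_
      rw [← h]
      exact (m i).2

noncomputable def smallF (q T : ℕ) : Finset (MvPolynomial (Fin q) ℤ) := by
  classical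
  exact (box q T).filter fun Q => Irreducible Q ∧ ⌈sz Q⌉₊ ^ (q + 1) = T

lemma mem_smallF {q T : ℕ} {Q : MvPolynomial (Fin q) ℤ} :
    Q ∈ smallF q T ↔ Irreducible Q ∧ ⌈sz Q⌉₊ ^ (q + 1) = T := by
  classical
  unfold smallF
  rw [Finset.mem_filter]
  refine ⟨fun h => h.2, fun h => ⟨mem_box Q ((Nat.le_ceil _).trans ?_), h⟩⟩
  rw [← h.2]
  exact_mod_cast Nat.le_self_pow (by omega) _

lemma slow_smallF (q : ℕ) : Slow (smallF q) := by
  refine ⟨fun T P hP => (mem_smallF.mp hP).1.ne_zero, 3 * 2 ^ (q + 1), by positivity, fun T => ?_⟩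
  rcases (smallF q T).eq_empty_or_nonempty with h | ⟨Q0, hQ0⟩
  · rw [h, Finset.sum_empty]; positivity
  set n := ⌈sz Q0⌉₊
  have hn : n ^ (q + 1) = T := (mem_smallF.mp hQ0).2
  have h1 : ∀ Q ∈ smallF q T, sz Q ≤ n := by
    intro Q hQ
    have : ⌈sz Q⌉₊ = n := Nat.pow_left_injective (by omega) ((mem_smallF.mp hQ).2.trans hn.symm)
    rw [← this]; exact Nat.le_ceil _
  have h2 : ((smallF q T).card : ℝ) ≤ exp (2 * (n + 1) ^ (q + 1)) := by
    refine le_trans ?_ (card_box q n)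
    exact_mod_cast Finset.card_le_card fun Q hQ => mem_box Q (h1 Q hQ)
  have h3 : ((n : ℝ) + 1) ^ (q + 1) ≤ 2 ^ (q + 1) * (T + 1) := by
    rcases Nat.eq_zero_or_pos n with h | h
    · rw [h]
      have : (1 : ℝ) ≤ 2 ^ (q + 1) := one_le_pow₀ (by norm_num)
      have : (0 : ℝ) ≤ T := Nat.cast_nonneg _
      simp only [Nat.cast_zero, zero_add, one_pow]
      nlinarith
    · have : (1 : ℝ) ≤ n := by exact_mod_cast h
      calc ((n : ℝ) + 1) ^ (q + 1) ≤ (2 * n) ^ (q + 1) := by gcongr; linarith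
        _ = 2 ^ (q + 1) * T := by rw [mul_pow, ← hn]; push_cast; rfl
        _ ≤ _ := by gcongr; linarith
  have h4 : (1 : ℝ) + n ≤ exp (((n : ℝ) + 1) ^ (q + 1)) := by
    have : (n : ℝ) + 1 ≤ ((n : ℝ) + 1) ^ (q + 1) :=
      le_self_pow₀ (by linarith [(Nat.cast_nonneg n : (0 : ℝ) ≤ n)]) (by omega)
    linarith [add_one_le_exp (((n : ℝ) + 1) ^ (q + 1))]
  calc ∑ P ∈ smallF q T, (1 + sz P) ≤ (smallF q T).card • ((1 : ℝ) + n) :=
        Finset.sum_le_card_nsmul _ _ _ fun Q hQ => by linarith [h1 Q hQ]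
    _ ≤ exp (2 * (n + 1) ^ (q + 1)) * exp (((n : ℝ) + 1) ^ (q + 1)) := by
        rw [nsmul_eq_mul]; gcongr
    _ ≤ _ := by rw [← exp_add]; exact exp_le_exp.mpr (by linarith)

lemma small_bound {q : ℕ} {s T : ℝ} (hs : 1 / 2 ≤ s) (hT : 1 ≤ T) (h : s * AA q T < T) :
    s * AA q ((⌈s⌉₊ ^ (q + 1) : ℕ) : ℝ) + (⌈s⌉₊ ^ (q + 1) : ℕ) ≤ 2 * 3 ^ (q + 1) * (s * AA q T) := by
  have hT0 : 0 < T := by linarith
  set W := T ^ ((1 / 2 : ℝ) ^ q) with hW
  have hA := one_le_AA q hT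
  have hAW : AA q T * W = T := by
    rw [AA, hW, ← rpow_add hT0]; simp
  have hW1 : 1 ≤ W := one_le_rpow hT (by positivity)
  have hWT : W ^ (q + 1) ≤ T := by
    rw [hW, ← rpow_natCast, ← rpow_mul hT0.le]
    conv_rhs => rw [← rpow_one T]
    refine rpow_le_rpow_of_exponent_le hT ?_
    have : ((q + 1 : ℕ) : ℝ) ≤ 2 ^ q := by exact_mod_cast Nat.lt_two_pow_self
    rw [one_div, inv_pow, inv_mul_le_iff₀ (by positivity), mul_one]
    exact this
  have hWA : W ^ q ≤ AA q T := by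
    rw [pow_succ, ← hAW] at hWT
    exact le_of_mul_le_mul_right hWT (by linarith)
  have hsW : s ≤ W := by
    have h' : s * AA q T < W * AA q T := by rw [mul_comm W, hAW]; exact h
    exact (lt_of_mul_lt_mul_right h' (by linarith)).le
  have hn : (⌈s⌉₊ : ℝ) ≤ 3 * s := by linarith [Nat.ceil_lt_add_one (show 0 ≤ s by linarith)]
  have h1 : ((⌈s⌉₊ ^ (q + 1) : ℕ) : ℝ) ≤ 3 ^ (q + 1) * (s * W ^ q) := by
    push_cast
    calc (⌈s⌉₊ : ℝ) ^ (q + 1) ≤ (3 * s) ^ (q + 1) := by gcongr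
      _ = 3 ^ (q + 1) * (s * s ^ q) := by ring
      _ ≤ _ := by gcongr
  have h2 : ((⌈s⌉₊ ^ (q + 1) : ℕ) : ℝ) ≤ 3 ^ (q + 1) * T := by
    refine h1.trans (mul_le_mul_of_nonneg_left (le_trans ?_ hWT) (by positivity))
    rw [pow_succ']; gcongr
  have h3 := AA_mul_le q (one_le_pow₀ (by norm_num)) (Nat.cast_nonneg _) hT0.le h2
  have h4 : s * W ^ q ≤ s * AA q T := by gcongr
  have h5 : s * AA q ((⌈s⌉₊ ^ (q + 1) : ℕ) : ℝ) ≤ s * (3 ^ (q + 1) * AA q T) := by gcongr
  have h6 : (3 : ℝ) ^ (q + 1) * (s * W ^ q) ≤ 3 ^ (q + 1) * (s * AA q T) := by gcongr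
  linarith

lemma good_of_irr {q : ℕ} (hq : 1 ≤ q) (hI : Irr q) : Good q := by
  classical
  rintro F ⟨hF0, κ, hκ, hF⟩
  choose n Q hQ using fun P : MvPolynomial (Fin q) ℤ => exists_fac P
  let G : ℕ → Finset (MvPolynomial (Fin q) ℤ) := fun T =>
    ((F T).sigma fun P => (Finset.univ : Finset (Fin (n P)))).image fun p => Q p.1 p.2
  have hGI : ∀ T, ∀ R ∈ G T, Irreducible R := by
    intro T R hR
    obtain ⟨p, hp, rfl⟩ := Finset.mem_image.mp hR
    exact (hQ p.1 (hF0 T _ (Finset.mem_sigma.mp hp).1)).1 p.2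
  have hG : Slow G := by
    refine ⟨fun T R hR => (hGI T R hR).ne_zero, κ + 3 * (1 + 2 * q), by positivity, fun T => ?_⟩
    refine (sum_image_le' _ _ (fun P => 1 + sz P) fun P => by linarith [sz_nonneg P]).trans ?_
    rw [Finset.sum_sigma]
    have h1 : ∀ P ∈ F T, ∑ i : Fin (n P), (1 + sz (Q P i)) ≤ 3 * (1 + 2 * q) * (1 + sz P) := by
      intro P hP
      obtain ⟨a1, _, a3⟩ := hQ P (hF0 T P hP)
      have a4 : ∑ i : Fin (n P), (1 + sz (Q P i)) ≤ ∑ i : Fin (n P), 3 * sz (Q P i) :=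
        Finset.sum_le_sum fun i _ => by linarith [half_le_sz (a1 i)]
      rw [← Finset.mul_sum] at a4
      have : (0 : ℝ) ≤ q := Nat.cast_nonneg _
      nlinarith
    refine (Finset.sum_le_sum h1).trans ?_
    rw [← Finset.mul_sum, add_mul, exp_add, mul_comm (exp _)]
    refine mul_le_mul ?_ (hF T) (Finset.sum_nonneg fun P _ => by linarith [sz_nonneg P])
      (by positivity)
    have : (0 : ℝ) ≤ 3 * (1 + 2 * q) * T := by positivity
    linarith [add_one_le_exp (3 * (1 + 2 * (q : ℝ)) * (T + 1))]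
  obtain ⟨C1, hC1, h1⟩ := hI G hG hGI
  obtain ⟨C2, hC2, h2⟩ := hI _ (slow_smallF q) fun T P hP => (mem_smallF.mp hP).1
  have h3 : ∀ᵐ x : Fin q → ℝ, ∀ T' : ℕ, ∀ R ∈ smallF q T', (∀ i, |x i| ≤ 1) → 0 < ‖ev x R‖ := by
    refine ae_all_iff.mpr fun T' => (eventually_all_finset _).mpr fun R hR => ?_
    have hR' := (mem_smallF.mp hR).1
    obtain ⟨C, _, h⟩ := hI (fun _ => {R}) ⟨fun _ P hP => by
      rw [Finset.mem_singleton.mp hP]; exact hR'.ne_zero, sz R, sz_nonneg R, fun T => by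
        rw [Finset.sum_singleton]
        have : 0 ≤ sz R * T := mul_nonneg (sz_nonneg R) (Nat.cast_nonneg _)
        linarith [add_one_le_exp (sz R * (T + 1))]⟩
      fun _ P hP => by rw [Finset.mem_singleton.mp hP]; exact hR'
    filter_upwards [h] with x hx hx1
    obtain ⟨T, hT⟩ := (hx hx1).exists
    exact (exp_pos _).trans_le (hT R (Finset.mem_singleton_self R))
  set C3 := 2 * C1 + 2 * 3 ^ (q + 1) * C2 + 1 with hC3
  refine ⟨C3 * (1 + 2 * q), by positivity, ?_⟩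
  filter_upwards [h1, h2, h3] with x h1 h2 h3 hx
  obtain ⟨T0, hT0⟩ := eventually_atTop.mp (h2 hx)
  have hA : Tendsto (fun T : ℕ => exp (-(1 / 2 * AA q T))) atTop (nhds 0) := by
    refine tendsto_exp_atBot.comp (tendsto_neg_atTop_atBot.comp ?_)
    refine Tendsto.const_mul_atTop (by norm_num) ?_
    refine (tendsto_rpow_atTop ?_).comp tendsto_natCast_atTop_atTop
    exact sub_pos.mpr (pow_lt_one₀ (by norm_num) (by norm_num) (by omega))
  have h4 : ∀ᶠ T : ℕ in atTop, ∀ T' ∈ range T0, ∀ R ∈ smallF q T',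
      exp (-(1 / 2 * AA q T)) ≤ ‖ev x R‖ :=
    (eventually_all_finset _).mpr fun T' _ => (eventually_all_finset _).mpr fun R hR =>
      hA.eventually (ge_mem_nhds (h3 T' R hR hx))
  filter_upwards [h1 hx, h4, eventually_ge_atTop 1] with T h1 h4 hT P hP
  have hT' : (1 : ℝ) ≤ T := by exact_mod_cast hT
  have hA1 := one_le_AA q hT'
  obtain ⟨a1, a2, a3⟩ := hQ P (hF0 T P hP)
  have h5 : ∀ i, exp (-(C3 * (sz (Q P i) * AA q T))) ≤ ‖ev x (Q P i)‖ := by
    intro i
    have hs := half_le_sz (a1 i)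
    have hsA : 0 ≤ sz (Q P i) * AA q T := by positivity
    have b1 : 0 ≤ C1 * (sz (Q P i) * AA q T) := by positivity
    have b2 : 0 ≤ 3 ^ (q + 1) * C2 * (sz (Q P i) * AA q T) := by positivity
    by_cases hc : sz (Q P i) * AA q T < T
    · have hm : Q P i ∈ smallF q (⌈sz (Q P i)⌉₊ ^ (q + 1)) := mem_smallF.mpr ⟨a1 i, rfl⟩
      by_cases hc2 : ⌈sz (Q P i)⌉₊ ^ (q + 1) < T0
      · refine le_trans (exp_le_exp.mpr (neg_le_neg ?_)) (h4 _ (Finset.mem_range.mpr hc2) _ hm)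
        have : 1 / 2 * AA q T ≤ sz (Q P i) * AA q T := by gcongr
        rw [hC3]; nlinarith
      · refine le_trans (exp_le_exp.mpr (neg_le_neg ?_)) (hT0 _ (not_lt.mp hc2) _ hm)
        have := mul_le_mul_of_nonneg_left (small_bound hs hT' hc) hC2
        rw [hC3]; nlinarith
    · refine le_trans (exp_le_exp.mpr (neg_le_neg ?_))
        (h1 _ (Finset.mem_image.mpr ⟨⟨P, i⟩, by simp [hP], rfl⟩))
      have := mul_le_mul_of_nonneg_left (not_lt.mp hc) hC1
      rw [hC3]; nlinarith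
  rw [a2]
  refine le_trans ?_ (Finset.prod_le_prod (fun _ _ => (exp_pos _).le) fun i _ => h5 i)
  rw [← exp_sum, Finset.sum_neg_distrib, ← Finset.mul_sum, ← Finset.sum_mul]
  refine exp_le_exp.mpr (neg_le_neg ?_)
  calc C3 * ((∑ i, sz (Q P i)) * AA q T) ≤ C3 * ((1 + 2 * q) * sz P * AA q T) := by gcongr
    _ = _ := by ring

theorem good (q : ℕ) : Good q := by
  induction q with
  | zero => exact good_zero
  | succ q ih => exact good_of_irr (by omega) (irr_of_good ih)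

end Pool.Agent.MP_9bb777_an
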