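import Mathlib

/-! The sum of the norms of the coefficients of a polynomial in several variables. -/

namespace Pool.Agent.MP_9bb777_an

open MvPolynomial Finset

section
variable {σ : Type} {R : Type} [NormedCommRing R]

noncomputable def nrm (P : MvPolynomial σ R) : ℝ := ∑ m ∈ P.support, ‖coeff m P‖

lemma nrm_eq_sum {P : MvPolynomial σ R} {s : Finset (σ →₀ ℕ)} (h : P.support ⊆ s) :
    nrm P = ∑ m ∈ s, ‖coeff m P‖ := by
  unfold nrm
  refine Finset.sum_subset h fun m _ hm => ?_
  rw [notMem_support_iff.mp hm, norm_zero]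

lemma nrm_nonneg (P : MvPolynomial σ R) : 0 ≤ nrm P :=
  Finset.sum_nonneg fun _ _ => norm_nonneg _

@[simp] lemma nrm_zero : nrm (0 : MvPolynomial σ R) = 0 := by simp [nrm]

lemma coeff_le_nrm (P : MvPolynomial σ R) (m : σ →₀ ℕ) : ‖coeff m P‖ ≤ nrm P := by
  by_cases h : m ∈ P.support
  · exact Finset.single_le_sum (f := fun m => ‖coeff m P‖) (fun _ _ => norm_nonneg _) h
  · rw [notMem_support_iff.mp h, norm_zero]; exact nrm_nonneg P

lemma nrm_add_le (P Q : MvPolynomial σ R) : nrm (P + Q) ≤ nrm P + nrm Q := by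
  classical
  rw [nrm_eq_sum (s := P.support ∪ Q.support) support_add,
    nrm_eq_sum (P := P) (s := P.support ∪ Q.support) subset_union_left,
    nrm_eq_sum (P := Q) (s := P.support ∪ Q.support) subset_union_right, ← Finset.sum_add_distrib]
  exact Finset.sum_le_sum fun m _ => by rw [coeff_add]; exact norm_add_le _ _

lemma nrm_neg (P : MvPolynomial σ R) : nrm (-P) = nrm P := by
  unfold nrm
  rw [support_neg]
  exact Finset.sum_congr rfl fun m _ => by rw [coeff_neg, norm_neg]

lemma nrm_sub_le (P Q : MvPolynomial σ R) : nrm (P - Q) ≤ nrm P + nrm Q := by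
  rw [sub_eq_add_neg, ← nrm_neg Q]; exact nrm_add_le _ _

lemma nrm_sum_le {ι : Type} (s : Finset ι) (f : ι → MvPolynomial σ R) :
    nrm (∑ i ∈ s, f i) ≤ ∑ i ∈ s, nrm (f i) := by
  classical
  induction s using Finset.induction_on with
  | empty => simp
  | insert a s ha ih =>
    rw [Finset.sum_insert ha, Finset.sum_insert ha]
    exact (nrm_add_le _ _).trans (by linarith)

lemma nrm_monomial (m : σ →₀ ℕ) (c : R) : nrm (monomial m c) = ‖c‖ := by
  classical
  rw [nrm_eq_sum (s := {m}) support_monomial_subset]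
  simp

lemma nrm_C (c : R) : nrm (C c : MvPolynomial σ R) = ‖c‖ := nrm_monomial 0 c

lemma nrm_mul_le (P Q : MvPolynomial σ R) : nrm (P * Q) ≤ nrm P * nrm Q := by
  classical
  have h : P * Q = ∑ a ∈ P.support, ∑ b ∈ Q.support,
      monomial (a + b) (coeff a P * coeff b Q) := by
    conv_lhs => rw [P.as_sum, Q.as_sum]
    rw [Finset.sum_mul_sum]
    simp only [monomial_mul]
  rw [h]
  refine (nrm_sum_le _ _).trans ?_
  unfold nrm
  rw [Finset.sum_mul_sum]
  refine Finset.sum_le_sum fun a _ => ?_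
  refine (nrm_sum_le _ _).trans (Finset.sum_le_sum fun b _ => ?_)
  rw [nrm_monomial]
  exact norm_mul_le _ _

lemma nrm_one [NormOneClass R] : nrm (1 : MvPolynomial σ R) = 1 := by
  rw [← C_1, nrm_C, norm_one]

lemma nrm_X [NormOneClass R] (i : σ) : nrm (X i : MvPolynomial σ R) = 1 := by
  rw [X, nrm_monomial, norm_one]

lemma nrm_prod_le [NormOneClass R] {ι : Type} (s : Finset ι) (f : ι → MvPolynomial σ R) :
    nrm (∏ i ∈ s, f i) ≤ ∏ i ∈ s, nrm (f i) := by
  classical
  induction s using Finset.induction_on with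
  | empty => simp [nrm_one]
  | insert a s ha ih =>
    rw [Finset.prod_insert ha, Finset.prod_insert ha]
    exact (nrm_mul_le _ _).trans (mul_le_mul_of_nonneg_left ih (nrm_nonneg _))

lemma norm_eval₂_le (f : R →+* ℂ) (hf : ∀ r, ‖f r‖ ≤ ‖r‖) (x : σ → ℂ) (hx : ∀ i, ‖x i‖ ≤ 1)
    (P : MvPolynomial σ R) : ‖eval₂ f x P‖ ≤ nrm P := by
  rw [eval₂_eq]
  refine (norm_sum_le _ _).trans (Finset.sum_le_sum fun m _ => ?_)
  rw [norm_mul, norm_prod]
  have : ∏ i ∈ m.support, ‖x i ^ m i‖ ≤ 1 :=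
    Finset.prod_le_one (fun _ _ => norm_nonneg _) fun i _ => by
      rw [norm_pow]; exact pow_le_one₀ (norm_nonneg _) (hx i)
  calc ‖f (coeff m P)‖ * ∏ i ∈ m.support, ‖x i ^ m i‖ ≤ ‖f (coeff m P)‖ * 1 :=
        mul_le_mul_of_nonneg_left this (norm_nonneg _)
    _ ≤ _ := by rw [mul_one]; exact hf _

lemma nrm_map {S : Type} [NormedCommRing S] (f : R →+* S) (hf : ∀ r, ‖f r‖ = ‖r‖)
    (P : MvPolynomial σ R) : nrm (map f P) = nrm P := by
  rw [nrm_eq_sum (s := P.support) (support_map_subset f P)]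
  exact Finset.sum_congr rfl fun m _ => by rw [coeff_map, hf]

lemma nrm_finSucc {q : ℕ} (P : MvPolynomial (Fin (q + 1)) R) (N : ℕ)
    (hN : (finSuccEquiv R q P).natDegree < N) :
    ∑ k ∈ range N, nrm ((finSuccEquiv R q P).coeff k) = nrm P := by
  classical
  have h1 : ∀ m ∈ P.support, m 0 ∈ range N := by
    intro m hm
    have : m 0 ∈ (finSuccEquiv R q P).support := by
      rw [support_finSuccEquiv]; exact Finset.mem_image_of_mem _ hm
    exact Finset.mem_range.mpr ((Polynomial.le_natDegree_of_mem_supp _ this).trans_lt hN)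
  unfold nrm
  rw [← Finset.sum_fiberwise_of_maps_to h1]
  refine Finset.sum_congr rfl fun k _ => ?_
  rw [← image_support_finSuccEquiv, Finset.sum_image]
  · exact Finset.sum_congr rfl fun m _ => by rw [finSuccEquiv_coeff_coeff]
  · intro a _ b _ h
    exact Finsupp.cons_right_injective k h

lemma nrm_coeff_le {q : ℕ} (P : MvPolynomial (Fin (q + 1)) R) (k : ℕ) :
    nrm ((finSuccEquiv R q P).coeff k) ≤ nrm P := by
  rw [← nrm_finSucc P ((finSuccEquiv R q P).natDegree + k + 1) (by omega)]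
  exact Finset.single_le_sum (f := fun k => nrm ((finSuccEquiv R q P).coeff k))
    (fun _ _ => nrm_nonneg _) (Finset.mem_range.mpr (by omega))

lemma deg_coeff_le {q : ℕ} (P : MvPolynomial (Fin (q + 1)) R) (k : ℕ) :
    ((finSuccEquiv R q P).coeff k).totalDegree ≤ P.totalDegree := by
  by_cases h : (finSuccEquiv R q P).coeff k = 0
  · rw [h]; simp
  · have := totalDegree_coeff_finSuccEquiv_add_le P k h
    omega

lemma natDegree_le_deg {q : ℕ} (P : MvPolynomial (Fin (q + 1)) R) :
    (finSuccEquiv R q P).natDegree ≤ P.totalDegree := by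
  rw [natDegree_finSuccEquiv]; exact degreeOf_le_totalDegree _ _

lemma nrm_det_le [NormOneClass R] {n : ℕ} (A : Matrix (Fin n) (Fin n) (MvPolynomial σ R)) (b : ℝ)
    (hb : ∀ i j, nrm (A i j) ≤ b) : nrm A.det ≤ n.factorial * b ^ n := by
  rw [Matrix.det_apply]
  refine (nrm_sum_le _ _).trans ?_
  have : ∀ s : Equiv.Perm (Fin n), nrm (Equiv.Perm.sign s • ∏ i, A (s i) i) ≤ b ^ n := by
    intro s
    have h1 : nrm (∏ i, A (s i) i) ≤ b ^ n := by
      refine (nrm_prod_le _ _).trans ?_
      calc ∏ i, nrm (A (s i) i) ≤ ∏ _i : Fin n, b :=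
            Finset.prod_le_prod (fun _ _ => nrm_nonneg _) fun i _ => hb _ _
        _ = b ^ n := by simp
    rcases Int.units_eq_one_or (Equiv.Perm.sign s) with h | h
    · rw [h, one_smul]; exact h1
    · rw [h, Units.neg_smul, one_smul, nrm_neg]; exact h1
  calc ∑ s : Equiv.Perm (Fin n), nrm (Equiv.Perm.sign s • ∏ i, A (s i) i)
      ≤ ∑ _s : Equiv.Perm (Fin n), b ^ n := Finset.sum_le_sum fun s _ => this s
    _ = n.factorial * b ^ n := by simp [Fintype.card_perm]

lemma deg_det_le {n : ℕ} (A : Matrix (Fin n) (Fin n) (MvPolynomial σ R)) (D : ℕ)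
    (hb : ∀ i j, (A i j).totalDegree ≤ D) : A.det.totalDegree ≤ n * D := by
  rw [Matrix.det_apply]
  refine totalDegree_finsetSum_le fun s _ => ?_
  have h1 : (∏ i, A (s i) i).totalDegree ≤ n * D := by
    refine (totalDegree_finsetProd _ _).trans ?_
    calc ∑ i, (A (s i) i).totalDegree ≤ ∑ _i : Fin n, D := Finset.sum_le_sum fun i _ => hb _ _
      _ = n * D := by simp
  rcases Int.units_eq_one_or (Equiv.Perm.sign s) with h | h
  · rw [h, one_smul]; exact h1
  · rw [h, Units.neg_smul, one_smul, totalDegree_neg]; exact h1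

end

lemma one_le_nrm {σ : Type} {P : MvPolynomial σ ℤ} (h : P ≠ 0) : 1 ≤ nrm P := by
  obtain ⟨m, hm⟩ := ne_zero_iff.mp h
  refine le_trans ?_ (coeff_le_nrm P m)
  rw [Int.norm_eq_abs]
  exact_mod_cast Int.one_le_abs hm

/-- evaluation of an integer polynomial at a real point, with complex values -/
noncomputable def ev {σ : Type} (x : σ → ℝ) : MvPolynomial σ ℤ →+* ℂ :=
  eval₂Hom (Int.castRingHom ℂ) fun i => (x i : ℂ)

lemma norm_ev_le {σ : Type} (x : σ → ℝ) (hx : ∀ i, |x i| ≤ 1) (P : MvPolynomial σ ℤ) :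
    ‖ev x P‖ ≤ nrm P :=
  norm_eval₂_le (Int.castRingHom ℂ) (fun r => by simp [Int.norm_eq_abs]) _
    (fun i => by simpa using hx i) P

lemma ev_cons {q : ℕ} (z : ℝ) (y : Fin q → ℝ) (P : MvPolynomial (Fin (q + 1)) ℤ) :
    ev (Fin.cons z y : Fin (q + 1) → ℝ) P =
      Polynomial.eval (z : ℂ) (Polynomial.map (ev y) (finSuccEquiv ℤ q P)) := by
  induction P using MvPolynomial.induction_on with
  | C a => simp [ev]
  | add p q hp hq => simp [hp, hq]
  | mul_X p i hp =>
    rw [map_mul, map_mul, Polynomial.map_mul, Polynomial.eval_mul, hp]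
    congr 1
    refine Fin.cases ?_ (fun j => ?_) i
    · simp [ev, finSuccEquiv_X_zero]
    · simp [ev, finSuccEquiv_X_succ]

lemma continuous_ev {σ : Type} (P : MvPolynomial σ ℤ) : Continuous fun x : σ → ℝ => ev x P := by
  induction P using MvPolynomial.induction_on with
  | C a => simpa [ev] using continuous_const
  | add p q hp hq => simp only [map_add]; exact hp.add hq
  | mul_X p i hp =>
    have : (fun x : σ → ℝ => ev x (p * X i)) = fun x => ev x p * (x i : ℂ) := by
      funext x; simp [ev]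
    rw [this]
    fun_prop

end Pool.Agent.MP_9bb777_an
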