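import Pool.Agent.MP_9bb777_an.Gelfond

/-! Root clusters: a lower bound for a polynomial away from its roots in terms of its
discriminant. -/

namespace Pool.Agent.MP_9bb777_an

open Finset Real

lemma dist_root_ge (z α : ℂ) (hz : ‖z‖ ≤ 1) :
    max 1 ‖α‖ * min 1 ‖z - α‖ ≤ 2 * ‖z - α‖ := by
  have h0 := norm_nonneg (z - α)
  rcases le_total ‖α‖ 2 with h | h
  · exact mul_le_mul (max_le (by norm_num) h) (min_le_right _ _)
      (le_min zero_le_one h0) (by norm_num)
  · have h1 : ‖α‖ ≤ ‖z - α‖ + 1 := by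
      have := norm_sub_le z (z - α)
      rw [sub_sub_cancel] at this
      linarith
    rw [max_eq_right (by linarith), min_eq_left (by linarith)]
    linarith

lemma root_dist_le (z α β : ℂ) :
    ‖α - β‖ ≤ 2 * max 1 ‖α‖ * max 1 ‖β‖ * max (min 1 ‖z - α‖) (min 1 ‖z - β‖) := by
  have ha := le_max_left 1 ‖α‖
  have hb := le_max_left 1 ‖β‖
  have hab : 1 ≤ max 1 ‖α‖ * max 1 ‖β‖ := one_le_mul_of_one_le_of_one_le ha hb
  by_cases h : ‖z - α‖ ≤ 1 ∧ ‖z - β‖ ≤ 1
  · rw [min_eq_right h.1, min_eq_right h.2]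
    have h1 : ‖α - β‖ ≤ ‖z - α‖ + ‖z - β‖ := by
      have := norm_sub_le (z - β) (z - α)
      rw [show z - β - (z - α) = α - β by ring] at this
      linarith
    have h2 := le_max_left ‖z - α‖ ‖z - β‖
    have h3 := le_max_right ‖z - α‖ ‖z - β‖
    have h4 : 0 ≤ max ‖z - α‖ ‖z - β‖ := (norm_nonneg _).trans h2
    nlinarith
  · have h1 : max (min 1 ‖z - α‖) (min 1 ‖z - β‖) = 1 := by
      apply le_antisymm (max_le (min_le_left _ _) (min_le_left _ _))
      rcases not_and_or.mp h with h | h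
      · exact le_max_of_le_left (le_min le_rfl (not_le.mp h).le)
      · exact le_max_of_le_right (le_min le_rfl (not_le.mp h).le)
    rw [h1, mul_one]
    have h2 := norm_sub_le α β
    have h3 := le_max_right 1 ‖α‖
    have h4 := le_max_right 1 ‖β‖
    nlinarith

lemma cluster_num {d : ℕ} (hd : 1 ≤ d) (a z : ℂ) (α : Fin d → ℂ) (h Φ T : ℝ) (hh : 0 ≤ h)
    (hΦ : 0 ≤ Φ) (hT : 0 < T) (hz : ‖z‖ ≤ 1) (hM : ‖a‖ * ∏ i, max 1 ‖α i‖ ≤ exp h)
    (hR : exp (-Φ) ≤ ‖a ^ (d - 1) * ∏ i, (a * ∏ j ∈ univ.erase i, (α i - α j))‖)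
    (hfar : ∀ i, exp (-T) ≤ ‖z - α i‖) :
    exp (-(Φ / d + 2 * d + 2 * T + √(T * (2 * d * h + d ^ 2 + Φ)))) ≤ ‖a * ∏ i, (z - α i)‖ := by
  have ha : a ≠ 0 := by
    rintro rfl
    have : (∏ i : Fin d, ((0 : ℂ) * ∏ j ∈ univ.erase i, (α i - α j))) = 0 :=
      Finset.prod_eq_zero (Finset.mem_univ ⟨0, hd⟩) (zero_mul _)
    rw [this, mul_zero, norm_zero] at hR
    exact absurd hR (not_le.mpr (exp_pos _))
  have ha' : 0 < ‖a‖ := norm_pos_iff.mpr ha
  set la := log ‖a‖ with hla
  set lm : Fin d → ℝ := fun i => log (max 1 ‖α i‖) with hlm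
  set l : Fin d → ℝ := fun i => -log (min 1 ‖z - α i‖) with hl
  have hmpos : ∀ i, 0 < max 1 ‖α i‖ := fun i => lt_max_of_lt_left one_pos
  have hupos : ∀ i, 0 < min 1 ‖z - α i‖ := fun i => lt_min one_pos ((exp_pos _).trans_le (hfar i))
  have hlm0 : ∀ i, 0 ≤ lm i := fun i => log_nonneg (le_max_left _ _)
  have hl0 : ∀ i, 0 ≤ l i := fun i => neg_nonneg.mpr (log_nonpos (hupos i).le (min_le_left _ _))
  have hlT : ∀ i, l i ≤ T := by
    intro i
    have : exp (-T) ≤ min 1 ‖z - α i‖ := le_min (exp_le_one_iff.mpr (by linarith)) (hfar i)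
    have := (le_log_iff_exp_le (hupos i)).mpr this
    simp only [hl]; linarith
  have hem : ∀ i, max 1 ‖α i‖ = exp (lm i) := fun i => (exp_log (hmpos i)).symm
  have heu : ∀ i, min 1 ‖z - α i‖ = exp (-l i) := fun i => by
    simp only [hl, neg_neg]; exact (exp_log (hupos i)).symm
  have hea : ‖a‖ = exp la := (exp_log ha').symm
  have h2 : (2 : ℝ) ≤ exp 1 := by linarith [add_one_le_exp (1 : ℝ)]
  set S := ∑ i, lm i with hS
  set X := ∑ i, l i with hX
  have hS0 : 0 ≤ S := Finset.sum_nonneg fun i _ => hlm0 i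
  have hX0 : 0 ≤ X := Finset.sum_nonneg fun i _ => hl0 i
  have hμ : la + S ≤ h := by
    rw [hea] at hM
    simp only [hem, ← exp_sum, ← exp_add] at hM
    exact exp_le_exp.mp hM
  have hpair : ∀ i j, ‖α i - α j‖ ≤ exp (1 + lm i + lm j - l i * l j / T) := by
    intro i j
    refine (root_dist_le z (α i) (α j)).trans ?_
    have h3 : max (min 1 ‖z - α i‖) (min 1 ‖z - α j‖) ≤ exp (-(l i * l j / T)) := by
      rw [heu, heu]
      refine max_le (exp_le_exp.mpr (neg_le_neg ?_)) (exp_le_exp.mpr (neg_le_neg ?_))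
      · rw [div_le_iff₀ hT]; exact mul_le_mul_of_nonneg_left (hlT j) (hl0 i)
      · rw [div_le_iff₀ hT, mul_comm]; exact mul_le_mul_of_nonneg_left (hlT i) (hl0 j)
    rw [hem, hem, sub_eq_add_neg (1 + lm i + lm j), exp_add, exp_add, exp_add]
    gcongr
  have hdR : ((d - 1 : ℕ) : ℝ) = d - 1 := by rw [Nat.cast_sub hd]; simp
  have hd1 : (1 : ℝ) ≤ d := by exact_mod_cast hd
  have hrow : ∀ i, ∑ j ∈ univ.erase i, (1 + lm i + lm j - l i * l j / T) =
      (d - 1) + (d - 2) * lm i + S - l i * X / T + l i * l i / T := by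
    intro i
    rw [Finset.sum_erase_eq_sub (Finset.mem_univ i)]
    simp only [Finset.sum_sub_distrib, Finset.sum_add_distrib, Finset.sum_const, Finset.card_univ,
      Fintype.card_fin, nsmul_eq_mul, ← Finset.sum_div, ← Finset.mul_sum, ← hS, ← hX]
    ring
  have hkey : -Φ ≤ (2 * d - 1) * (la + S) + d ^ 2 - X * X / T + X := by
    have h3 : ‖a ^ (d - 1) * ∏ i, (a * ∏ j ∈ univ.erase i, (α i - α j))‖ ≤
        exp ((d - 1) * la + ∑ i, (la + ((d - 1) + (d - 2) * lm i + S - l i * X / T
          + l i * l i / T))) := by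
      rw [norm_mul, norm_pow, norm_prod, exp_add, exp_sum, hea, ← exp_nat_mul, hdR]
      refine mul_le_mul_of_nonneg_left ?_ (exp_pos _).le
      refine Finset.prod_le_prod (fun _ _ => norm_nonneg _) fun i _ => ?_
      rw [norm_mul, norm_prod, exp_add, hea, ← hrow, exp_sum]
      refine mul_le_mul_of_nonneg_left ?_ (exp_pos _).le
      exact Finset.prod_le_prod (fun _ _ => norm_nonneg _) fun j _ => hpair i j
    have h4 := exp_le_exp.mp (hR.trans h3)
    have h5 : ∑ i, l i * l i / T ≤ X := Finset.sum_le_sum fun i _ => by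
      rw [div_le_iff₀ hT]; exact mul_le_mul_of_nonneg_left (hlT i) (hl0 i)
    simp only [Finset.sum_sub_distrib, Finset.sum_add_distrib, Finset.sum_const, Finset.card_univ,
      Fintype.card_fin, nsmul_eq_mul, ← Finset.mul_sum, ← hS] at h4
    have h6 : ∑ i, l i * X / T = X * X / T := by
      rw [← Finset.sum_div, ← Finset.sum_mul]
    rw [h6] at h4
    nlinarith
  set F := 2 * d * h + d ^ 2 + Φ with hF
  have hF0 : 0 ≤ F := by positivity
  have hXT : X * X / T - X ≤ F := by
    have : (2 * d - 1) * (la + S) ≤ 2 * d * h := by nlinarith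
    linarith
  have hXle : X ≤ T + √(T * F) := by
    by_contra hc
    push Not at hc
    have h3 := sqrt_nonneg (T * F)
    have h4 : √(T * F) * √(T * F) = T * F := mul_self_sqrt (by positivity)
    have h5 : X * X - T * X ≤ T * F := by
      have := mul_le_mul_of_nonneg_left hXT hT.le
      rw [mul_sub, mul_div_cancel₀ _ hT.ne'] at this
      linarith
    nlinarith
  have hμ2 : -(Φ / d + d + T) ≤ la + S := by
    have h3 : 0 ≤ X * X / T - X + T := by
      have : X * X / T - X + T = ((X - T / 2) ^ 2 + 3 / 4 * T ^ 2) / T := by field_simp; ring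
      rw [this]; positivity
    have hd0 : (0 : ℝ) < d := by linarith
    rcases le_total 0 (la + S) with h4 | h4
    · have : 0 ≤ Φ / d + d + T := by positivity
      linarith
    · have h5 : -(Φ + d ^ 2 + T * d) ≤ (la + S) * d := by nlinarith
      have h6 : -(Φ / d + d + T) = -(Φ + d ^ 2 + T * d) / d := by field_simp
      rw [h6, div_le_iff₀ hd0]
      exact h5
  have hlow : exp (la + S - d - X) ≤ ‖a * ∏ i, (z - α i)‖ := by
    rw [norm_mul, norm_prod, hea, show la + S - d - X = la + ∑ i, (lm i - 1 - l i) by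
      simp only [Finset.sum_sub_distrib, Finset.sum_const, Finset.card_univ, Fintype.card_fin,
        nsmul_eq_mul, ← hS, ← hX]; ring, exp_add, exp_sum]
    refine mul_le_mul_of_nonneg_left ?_ (exp_pos _).le
    refine Finset.prod_le_prod (fun _ _ => (exp_pos _).le) fun i _ => ?_
    have := dist_root_ge z (α i) hz
    rw [hem, heu] at this
    rw [sub_eq_add_neg, sub_eq_add_neg, exp_add, exp_add, exp_neg 1]
    have h3 : exp (lm i) * exp (-l i) ≤ exp 1 * ‖z - α i‖ :=
      this.trans (mul_le_mul_of_nonneg_right h2 (norm_nonneg _))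
    rw [mul_right_comm, ← div_eq_mul_inv, div_le_iff₀ (exp_pos 1), mul_comm ‖_‖]
    exact h3
  refine le_trans (exp_le_exp.mpr ?_) hlow
  linarith

open Polynomial MeasureTheory in
lemma cluster (g : ℂ[X]) {d : ℕ} (hd : 1 ≤ d) (hg : g.natDegree ≤ d) (h Φ T : ℝ) (hh : 0 ≤ h)
    (hΦ : 0 ≤ Φ) (hT : 0 < T) (hM : g.mahlerMeasure ≤ exp h)
    (hR : exp (-Φ) ≤ ‖resultant g (derivative g) d (d - 1)‖) :
    volume {z : ℝ | |z| ≤ 1 ∧ ‖g.eval (z : ℂ)‖ <
      exp (-(Φ / d + 2 * d + 2 * T + √(T * (2 * d * h + d ^ 2 + Φ))))} ≤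
      ENNReal.ofReal (d * (2 * exp (-T))) := by
  classical
  have hgd : g.natDegree = d := by
    by_contra hne
    have hlt : g.natDegree < d := lt_of_le_of_ne hg hne
    have : resultant g (derivative g) d (d - 1) = 0 := by
      by_cases h0 : g.natDegree = 0
      · rw [derivative_of_natDegree_zero h0, resultant_zero_right, zero_pow (by omega), zero_mul]
      · exact resultant_eq_zero_of_lt_lt _ _ _ _ hlt
          ((natDegree_derivative_lt h0).trans_le (by omega))
    rw [this, norm_zero] at hR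
    exact absurd hR (not_le.mpr (exp_pos _))
  have hs : g.Splits := IsAlgClosed.splits g
  obtain ⟨α, hα⟩ : ∃ α : Fin d → ℂ, g.roots = Finset.univ.val.map α := by
    have hc : g.roots.card = d := by rw [← hs.natDegree_eq_card_roots, hgd]
    induction hr : g.roots using Quotient.inductionOn with
    | _ l =>
      rw [hr] at hc
      have hl : l.length = d := by simpa using hc
      subst hl
      refine ⟨l.get, ?_⟩
      rw [Fin.univ_val_map]
      simp
  set a := g.leadingCoeff with ha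
  have hprod : g = C a * ∏ i, (X - C (α i)) := by
    conv_lhs => rw [hs.eq_prod_roots, hα, Multiset.map_map]
    rfl
  have hev : ∀ z : ℂ, g.eval z = a * ∏ i, (z - α i) := by
    intro z
    conv_lhs => rw [hprod]
    simp [eval_prod]
  have hder : ∀ i, (derivative g).eval (α i) = a * ∏ j ∈ univ.erase i, (α i - α j) := by
    intro i
    conv_lhs => rw [hprod]
    rw [derivative_C_mul, eval_mul, eval_C, derivative_prod_finset, eval_finsetSum,
      Finset.sum_eq_single i]
    · simp [eval_prod]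
    · intro j _ hj
      rw [eval_mul, eval_prod, Finset.prod_eq_zero (i := i) (by simp [hj.symm]) (by simp), zero_mul]
    · simp
  have hR' : exp (-Φ) ≤ ‖a ^ (d - 1) * ∏ i, (a * ∏ j ∈ univ.erase i, (α i - α j))‖ := by
    have := resultant_eq_prod_eval g (derivative g) (d - 1)
      ((natDegree_derivative_le g).trans (by rw [hgd])) hs
    rw [hgd, hα, Multiset.map_map] at this
    rw [this] at hR
    simp only [← hder]
    exact hR
  have hM' : ‖a‖ * ∏ i, max 1 ‖α i‖ ≤ exp h := by
    rw [mahlerMeasure_eq_leadingCoeff_mul_prod_roots, hα, Multiset.map_map] at hM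
    exact hM
  calc volume {z : ℝ | |z| ≤ 1 ∧ ‖g.eval (z : ℂ)‖ <
        exp (-(Φ / d + 2 * d + 2 * T + √(T * (2 * d * h + d ^ 2 + Φ))))}
      ≤ volume (⋃ i, Metric.ball (α i).re (exp (-T))) := by
        refine measure_mono fun z hz => ?_
        by_contra hc
        simp only [Set.mem_iUnion, not_exists, Metric.mem_ball, not_lt, Real.dist_eq] at hc
        refine absurd hz.2 (not_lt.mpr ?_)
        rw [hev]
        refine cluster_num hd a z α h Φ T hh hΦ hT (by simpa using hz.1) hM' hR' fun i => ?_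
        refine (hc i).trans ?_
        have := Complex.abs_re_le_norm ((z : ℂ) - α i)
        simpa using this
    _ ≤ ∑ i, volume (Metric.ball (α i).re (exp (-T))) := measure_iUnion_fintype_le _ _
    _ = _ := by
        simp only [Real.volume_ball, Finset.sum_const, Finset.card_univ, Fintype.card_fin,
          nsmul_eq_mul]
        rw [ENNReal.ofReal_mul (Nat.cast_nonneg _), ENNReal.ofReal_natCast]

end Pool.Agent.MP_9bb777_an
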