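import Pool.Agent.MP_9bb777_an.Metric

/-! Words in quaternions over a commutative ring, and a ping-pong point over the complex numbers. -/

namespace Pool.Agent.MP_9bb777_an

open Quaternion Matrix

def qmap {R S : Type} [CommRing R] [CommRing S] (f : R →+* S) : ℍ[R] →+* ℍ[S] where
  toFun x := ⟨f x.re, f x.imI, f x.imJ, f x.imK⟩
  map_one' := by ext <;> simp
  map_mul' x y := by ext <;> simp
  map_zero' := by ext <;> simp
  map_add' x y := by ext <;> simp

section
variable {R S : Type} [CommRing R] [CommRing S] (f : R →+* S) (x : ℍ[R])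
@[simp] lemma qmap_re : (qmap f x).re = f x.re := rfl
@[simp] lemma qmap_imI : (qmap f x).imI = f x.imI := rfl
@[simp] lemma qmap_imJ : (qmap f x).imJ = f x.imJ := rfl
@[simp] lemma qmap_imK : (qmap f x).imK = f x.imK := rfl
lemma qmap_star : qmap f (star x) = star (qmap f x) := by ext <;> simp
end

/-- the value of a word, inverses replaced by conjugates -/
def wq {R ι : Type} [CommRing R] (x : ι → ℍ[R]) (L : List (ι × Bool)) : ℍ[R] :=
  (L.map fun s => cond s.2 (x s.1) (star (x s.1))).prod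

@[simp] lemma wq_nil {R ι : Type} [CommRing R] (x : ι → ℍ[R]) : wq x [] = 1 := rfl

lemma wq_cons {R ι : Type} [CommRing R] (x : ι → ℍ[R]) (s : ι × Bool) (L : List (ι × Bool)) :
    wq x (s :: L) = cond s.2 (x s.1) (star (x s.1)) * wq x L := by simp [wq]

lemma qmap_wq {R S ι : Type} [CommRing R] [CommRing S] (f : R →+* S) (x : ι → ℍ[R])
    (L : List (ι × Bool)) : qmap f (wq x L) = wq (fun i => qmap f (x i)) L := by
  induction L with
  | nil => simp
  | cons s L ih =>
    rw [wq_cons, wq_cons, map_mul, ih]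
    obtain ⟨i, b⟩ := s
    cases b <;> simp [qmap_star]

/-- complex quaternions as matrices -/
noncomputable def qm : ℍ[ℂ] →+* Matrix (Fin 2) (Fin 2) ℂ where
  toFun x := !![x.re + Complex.I * x.imI, x.imJ + Complex.I * x.imK;
    -x.imJ + Complex.I * x.imK, x.re - Complex.I * x.imI]
  map_one' := by ext i j; fin_cases i <;> fin_cases j <;> simp
  map_mul' x y := by
    ext i j
    fin_cases i <;> fin_cases j <;> simp [Matrix.mul_apply, Fin.sum_univ_two] <;>
      ring_nf <;> simp [Complex.I_sq] <;> ring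
  map_zero' := by ext i j; fin_cases i <;> fin_cases j <;> simp
  map_add' x y := by ext i j; fin_cases i <;> fin_cases j <;> simp <;> ring

lemma qm_apply (x : ℍ[ℂ]) : qm x = !![x.re + Complex.I * x.imI, x.imJ + Complex.I * x.imK;
    -x.imJ + Complex.I * x.imK, x.re - Complex.I * x.imI] := rfl

noncomputable def nq (c : ℂ) : ℍ[ℂ] :=
  ⟨1, Complex.I * (c ^ 2 + 1) / (c ^ 2 - 1), 2 * c / (c ^ 2 - 1), 0⟩

def uu (c : ℂ) (b : Bool) : Fin 2 → ℂ := cond b ![1, c] ![c, 1]
def vv (c : ℂ) (b : Bool) : Fin 2 → ℂ := cond b ![-1, c] ![c, -1]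

lemma qm_nq {c : ℂ} (hc : c ^ 2 - 1 ≠ 0) (b : Bool) :
    qm (cond b (nq c) (star (nq c))) = (2 / (c ^ 2 - 1)) • vecMulVec (uu c b) (vv c b) := by
  have hI : Complex.I * (Complex.I * (c ^ 2 + 1) / (c ^ 2 - 1)) = -((c ^ 2 + 1) / (c ^ 2 - 1)) := by
    rw [mul_div_assoc, ← mul_assoc, Complex.I_mul_I]; ring
  cases b <;> ext i j <;> fin_cases i <;> fin_cases j <;>
    simp [qm_apply, nq, uu, vv, hI] <;> field_simp <;> ring

lemma pingpong {ι : Type} (c : ι → ℂ) (hc : ∀ i j, c i * c j ≠ 1) (hinj : Function.Injective c)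
    (L : List (ι × Bool)) : ∀ s : ι × Bool, FreeGroup.IsReduced (s :: L) →
    ∃ (l : ℂ) (t : ι × Bool), l ≠ 0 ∧
      qm (wq (fun i => nq (c i)) (s :: L)) = l • vecMulVec (uu (c s.1) s.2) (vv (c t.1) t.2) := by
  have h1 : ∀ i, c i ^ 2 - 1 ≠ 0 := fun i => by rw [sq]; exact sub_ne_zero.mpr (hc i i)
  induction L with
  | nil =>
    intro s _
    exact ⟨2 / (c s.1 ^ 2 - 1), s, div_ne_zero two_ne_zero (h1 _), by
      rw [wq_cons, wq_nil, mul_one, qm_nq (h1 _)]⟩
  | cons s' L ih =>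
    intro s h
    obtain ⟨h2, h3⟩ := FreeGroup.isReduced_cons_cons.mp h
    obtain ⟨l, t, hl, he⟩ := ih s' h3
    have h4 : vv (c s.1) s.2 ⬝ᵥ uu (c s'.1) s'.2 ≠ 0 := by
      obtain ⟨i, b⟩ := s
      obtain ⟨j, b'⟩ := s'
      have a1 := hc i j
      cases b <;> cases b' <;> simp [uu, vv] at h2 ⊢
      · intro h; exact a1 (by linear_combination h)
      · intro h; exact h2 (hinj (by linear_combination h))
      · intro h; exact h2 (hinj (by linear_combination h))
      · intro h; exact a1 (by linear_combination h)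
    refine ⟨2 / (c s.1 ^ 2 - 1) * l * (vv (c s.1) s.2 ⬝ᵥ uu (c s'.1) s'.2), t,
      mul_ne_zero (mul_ne_zero (div_ne_zero two_ne_zero (h1 _)) hl) h4, ?_⟩
    rw [wq_cons, map_mul, he, qm_nq (h1 _), smul_mul_smul_comm, vecMulVec_mul_vecMulVec]
    ext i j
    simp [vecMulVec_apply]
    ring

lemma pingpong_ne {ι : Type} (c : ι → ℂ) (hc : ∀ i j, c i * c j ≠ 1) (hinj : Function.Injective c)
    (L : List (ι × Bool)) (hL : L ≠ []) (h : FreeGroup.IsReduced L) :
    (wq (fun i => nq (c i)) L).imI ≠ 0 ∨ (wq (fun i => nq (c i)) L).imJ ≠ 0 ∨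
      (wq (fun i => nq (c i)) L).imK ≠ 0 := by
  by_contra hn
  push Not at hn
  obtain ⟨s, L, rfl⟩ := List.exists_cons_of_ne_nil hL
  obtain ⟨l, t, hl, he⟩ := pingpong c hc hinj L s h
  rw [qm_apply, hn.1, hn.2.1, hn.2.2] at he
  have e00 := congrFun (congrFun he 0) 0
  have e01 := congrFun (congrFun he 0) 1
  have e10 := congrFun (congrFun he 1) 0
  have e11 := congrFun (congrFun he 1) 1
  obtain ⟨i, b⟩ := s
  obtain ⟨j, b'⟩ := t
  have a1 := hc i j
  cases b <;> cases b' <;> simp [uu, vv, hl] at e00 e01 e10 e11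
  all_goals simp_all

end Pool.Agent.MP_9bb777_an
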