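import Pool.Agent.MP_9bb777_an.OneVar

/-! Size of integer polynomials, the discriminant step, and the scale function. -/

namespace Pool.Agent.MP_9bb777_an

open Finset Real MvPolynomial

noncomputable def sz {σ : Type} (P : MvPolynomial σ ℤ) : ℝ := P.totalDegree + log (nrm P)

lemma log_nrm_nonneg {σ : Type} (P : MvPolynomial σ ℤ) : 0 ≤ log (nrm P) := by
  by_cases h : P = 0
  · simp [h]
  · exact log_nonneg (one_le_nrm h)

lemma sz_nonneg {σ : Type} (P : MvPolynomial σ ℤ) : 0 ≤ sz P :=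
  add_nonneg (Nat.cast_nonneg _) (log_nrm_nonneg P)

lemma log_nrm_le {σ : Type} (P : MvPolynomial σ ℤ) {b : ℝ} (hb : 0 ≤ b) (h : nrm P ≤ exp b) :
    log (nrm P) ≤ b := by
  by_cases h0 : P = 0
  · simpa [h0] using hb
  · exact (log_le_iff_le_exp (zero_lt_one.trans_le (one_le_nrm h0))).mpr h

lemma nrm_le_exp {σ : Type} (P : MvPolynomial σ ℤ) : nrm P ≤ exp (log (nrm P)) := by
  by_cases h0 : P = 0
  · simp [h0]
  · exact (exp_log (zero_lt_one.trans_le (one_le_nrm h0))).ge

noncomputable def AA (q : ℕ) (T : ℝ) : ℝ := T ^ (1 - (1 / 2 : ℝ) ^ q)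

lemma expo_nonneg (q : ℕ) : 0 ≤ 1 - (1 / 2 : ℝ) ^ q :=
  sub_nonneg.mpr (pow_le_one₀ (by norm_num) (by norm_num))

lemma expo_le (q : ℕ) : 1 - (1 / 2 : ℝ) ^ q ≤ 1 := sub_le_self _ (by positivity)

lemma one_le_AA (q : ℕ) {T : ℝ} (hT : 1 ≤ T) : 1 ≤ AA q T := one_le_rpow hT (expo_nonneg q)

lemma AA_le_succ (q : ℕ) {T : ℝ} (hT : 1 ≤ T) : AA q T ≤ AA (q + 1) T := by
  refine rpow_le_rpow_of_exponent_le hT ?_
  rw [pow_succ]
  have : (0 : ℝ) ≤ (1 / 2 : ℝ) ^ q := by positivity
  linarith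

lemma AA_sq (q : ℕ) {T : ℝ} (hT : 1 ≤ T) : AA (q + 1) T * AA (q + 1) T = T * AA q T := by
  have h0 : 0 < T := by linarith
  unfold AA
  rw [← rpow_add h0]
  conv_rhs => enter [1]; rw [← rpow_one T]
  rw [← rpow_add h0, pow_succ]
  congr 1
  ring

lemma AA_mul_le (q : ℕ) {c T T' : ℝ} (hc : 1 ≤ c) (hT' : 0 ≤ T') (hT : 0 ≤ T) (h : T' ≤ c * T) :
    AA q T' ≤ c * AA q T := by
  unfold AA
  refine (rpow_le_rpow hT' h (expo_nonneg q)).trans ?_
  rw [mul_rpow (by linarith) hT]
  refine mul_le_mul_of_nonneg_right ?_ (rpow_nonneg hT _)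
  conv_rhs => rw [← rpow_one c]
  exact rpow_le_rpow_of_exponent_le hc (expo_le q)

/-- the discriminant in the first variable, or the constant coefficient -/
noncomputable def rs {q : ℕ} (Q : MvPolynomial (Fin (q + 1)) ℤ) : MvPolynomial (Fin q) ℤ :=
  if (finSuccEquiv ℤ q Q).natDegree = 0 then (finSuccEquiv ℤ q Q).coeff 0 else
    Polynomial.resultant (finSuccEquiv ℤ q Q) (Polynomial.derivative (finSuccEquiv ℤ q Q))
      (finSuccEquiv ℤ q Q).natDegree ((finSuccEquiv ℤ q Q).natDegree - 1)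

lemma rs_ne_zero {q : ℕ} {Q : MvPolynomial (Fin (q + 1)) ℤ} (hQ : Irreducible Q) : rs Q ≠ 0 := by
  have hf : Irreducible (finSuccEquiv ℤ q Q) :=
    (MulEquiv.irreducible_iff (finSuccEquiv ℤ q).toMulEquiv).mpr hQ
  unfold rs
  set f := finSuccEquiv ℤ q Q
  split_ifs with h
  · intro h0
    apply hf.ne_zero
    rw [Polynomial.eq_C_of_natDegree_eq_zero h, h0, map_zero]
  · let K := FractionRing (MvPolynomial (Fin q) ℤ)
    have hinj : Function.Injective (algebraMap (MvPolynomial (Fin q) ℤ) K) :=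
      IsFractionRing.injective _ _
    have : CharZero K := charZero_of_injective_algebraMap hinj
    have h1 : Irreducible (f.map (algebraMap _ K)) :=
      ((hf.isPrimitive h).irreducible_iff_irreducible_map_fraction_map).mp hf
    have h2 := Polynomial.resultant_ne_zero _ _ h1.separable
    rw [Polynomial.natDegree_derivative, Polynomial.natDegree_map_eq_of_injective hinj,
      Polynomial.derivative_map, Polynomial.resultant_map_map] at h2
    intro h0
    exact h2 (by rw [h0, map_zero])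

lemma sz_coeff_le {q : ℕ} (Q : MvPolynomial (Fin (q + 1)) ℤ) (k : ℕ) :
    sz ((finSuccEquiv ℤ q Q).coeff k) ≤ sz Q := by
  unfold sz
  refine add_le_add (by exact_mod_cast deg_coeff_le Q k) ?_
  exact log_nrm_le _ (log_nrm_nonneg Q) ((nrm_coeff_le Q k).trans (nrm_le_exp Q))

lemma natDegree_le_sz {q : ℕ} (Q : MvPolynomial (Fin (q + 1)) ℤ) :
    ((finSuccEquiv ℤ q Q).natDegree : ℝ) ≤ sz Q := by
  have : ((finSuccEquiv ℤ q Q).natDegree : ℝ) ≤ Q.totalDegree := by
    exact_mod_cast natDegree_le_deg Q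
  linarith [log_nrm_nonneg Q, show sz Q = Q.totalDegree + log (nrm Q) from rfl]

lemma sylvester_ind {R : Type} [CommRing R] (p : R → Prop) (f g : Polynomial R) (m n : ℕ)
    (h0 : p 0) (hf : ∀ k, p (f.coeff k)) (hg : ∀ k, p (g.coeff k)) (i j : Fin (m + n)) :
    p (Polynomial.sylvester f g m n i j) := by
  refine Fin.addCases (fun j => ?_) (fun j => ?_) j
  · simp only [Polynomial.sylvester, Matrix.of_apply, Fin.addCases_left]
    split_ifs
    exacts [hg _, h0]
  · simp only [Polynomial.sylvester, Matrix.of_apply, Fin.addCases_right]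
    split_ifs
    exacts [hf _, h0]

lemma sz_rs_le {q : ℕ} (Q : MvPolynomial (Fin (q + 1)) ℤ)
    (h : (finSuccEquiv ℤ q Q).natDegree ≠ 0) :
    sz (rs Q) ≤ 8 * (finSuccEquiv ℤ q Q).natDegree * sz Q := by
  unfold rs
  rw [if_neg h]
  set f := finSuccEquiv ℤ q Q with hf
  set d := f.natDegree with hd
  have hd1 : (1 : ℝ) ≤ d := by exact_mod_cast Nat.one_le_iff_ne_zero.mpr h
  have hdD : (d : ℝ) ≤ Q.totalDegree := by exact_mod_cast natDegree_le_deg Q
  have hH := nrm_nonneg Q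
  have hc1 : ∀ k, nrm (f.coeff k) ≤ d * nrm Q := fun k =>
    (nrm_coeff_le Q k).trans (le_mul_of_one_le_left hH hd1)
  have hc2 : ∀ k, nrm ((Polynomial.derivative f).coeff k) ≤ d * nrm Q := by
    intro k
    rw [Polynomial.coeff_derivative]
    by_cases hk : d < k + 1
    · rw [Polynomial.coeff_eq_zero_of_natDegree_lt hk, zero_mul, nrm_zero]; positivity
    · refine (nrm_mul_le _ _).trans ?_
      have : ((k : MvPolynomial (Fin q) ℤ) + 1) = C ((k : ℤ) + 1) := by simp
      rw [this, nrm_C, mul_comm]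
      refine mul_le_mul ?_ (nrm_coeff_le Q (k + 1)) (nrm_nonneg _) (by positivity)
      rw [Int.norm_eq_abs, abs_of_nonneg (by positivity)]
      exact_mod_cast not_lt.mp hk
  have hg1 : ∀ k, (f.coeff k).totalDegree ≤ Q.totalDegree := deg_coeff_le Q
  have hg2 : ∀ k, ((Polynomial.derivative f).coeff k).totalDegree ≤ Q.totalDegree := by
    intro k
    rw [Polynomial.coeff_derivative]
    refine (totalDegree_mul _ _).trans ?_
    have : ((k : MvPolynomial (Fin q) ℤ) + 1) = C ((k : ℤ) + 1) := by simp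
    rw [this, totalDegree_C, add_zero]
    exact hg1 _
  have hn : ((d + (d - 1) : ℕ) : ℝ) ≤ 2 * d := by
    have : d + (d - 1) ≤ 2 * d := by omega
    exact_mod_cast this
  have h1 : (Polynomial.resultant f (Polynomial.derivative f) d (d - 1)).totalDegree ≤
      (d + (d - 1)) * Q.totalDegree := by
    exact deg_det_le _ _ fun i j => sylvester_ind (fun r => r.totalDegree ≤ Q.totalDegree)
      f _ _ _ (by simp) hg1 hg2 i j
  have h2 : nrm (Polynomial.resultant f (Polynomial.derivative f) d (d - 1)) ≤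
      (d + (d - 1)).factorial * (d * nrm Q) ^ (d + (d - 1)) := by
    exact nrm_det_le _ _ fun i j => sylvester_ind (fun r => nrm r ≤ d * nrm Q)
      f _ _ _ (by rw [nrm_zero]; positivity) hc1 hc2 i j
  set n := d + (d - 1) with hn'
  have hL := log_nrm_nonneg Q
  have h3 : (n.factorial : ℝ) * (d * nrm Q) ^ n ≤ exp (n * (3 * d + log (nrm Q))) := by
    have h4 : (n.factorial : ℝ) ≤ (n : ℝ) ^ n := by exact_mod_cast Nat.factorial_le_pow n
    have h5 : (n : ℝ) ≤ exp (2 * d) := by linarith [add_one_le_exp (2 * (d : ℝ))]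
    have h6 : (d : ℝ) ≤ exp d := by linarith [add_one_le_exp (d : ℝ)]
    rw [exp_nat_mul]
    calc (n.factorial : ℝ) * (d * nrm Q) ^ n ≤ (n : ℝ) ^ n * (d * nrm Q) ^ n := by gcongr
      _ = (n * (d * nrm Q)) ^ n := by rw [← mul_pow]
      _ ≤ (exp (2 * d) * (exp d * exp (log (nrm Q)))) ^ n := by
        gcongr
        exact nrm_le_exp Q
      _ = _ := by rw [← exp_add, ← exp_add]; congr 2; ring
  have h4 := log_nrm_le _ (by positivity) (h2.trans h3)
  have h5 : ((Polynomial.resultant f (Polynomial.derivative f) d (d - 1)).totalDegree : ℝ) ≤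
      n * Q.totalDegree := by exact_mod_cast h1
  unfold sz
  have h6 : (n : ℝ) * (3 * d + log (nrm Q)) ≤ 2 * d * (3 * d + log (nrm Q)) := by gcongr
  have h7 : (n : ℝ) * Q.totalDegree ≤ 2 * d * Q.totalDegree := by gcongr
  nlinarith

lemma sz_rs_le' {q : ℕ} (Q : MvPolynomial (Fin (q + 1)) ℤ) : 1 + sz (rs Q) ≤ 8 * (1 + sz Q) ^ 2 := by
  have h0 := sz_nonneg Q
  by_cases h : (finSuccEquiv ℤ q Q).natDegree = 0
  · have : sz (rs Q) ≤ sz Q := by unfold rs; rw [if_pos h]; exact sz_coeff_le Q 0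
    nlinarith
  · have h1 := sz_rs_le Q h
    have h2 := natDegree_le_sz Q
    nlinarith

lemma mahler_map_le {q : ℕ} (Q : MvPolynomial (Fin (q + 1)) ℤ) (y : Fin q → ℝ)
    (hy : ∀ i, |y i| ≤ 1) :
    (Polynomial.map (ev y) (finSuccEquiv ℤ q Q)).mahlerMeasure ≤ exp (log (nrm Q)) := by
  refine (Polynomial.mahlerMeasure_le_sum_norm_coeff _).trans (le_trans ?_ (nrm_le_exp Q))
  rw [← nrm_finSucc Q _ (Nat.lt_succ_self _),
    Polynomial.sum_over_range' _ (by simp) ((finSuccEquiv ℤ q Q).natDegree + 1)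
      (Nat.lt_succ_of_le Polynomial.natDegree_map_le)]
  exact Finset.sum_le_sum fun k _ => by rw [Polynomial.coeff_map]; exact norm_ev_le y hy _

end Pool.Agent.MP_9bb777_an
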