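import Pool.Agent.MP_9bb777_an.Quat

/-! The Diophantine bound on a slice for the conjugation action. -/

namespace Pool.Agent.MP_9bb777_an

open Quaternion MvPolynomial Real MeasureTheory Filter

def mask (i c : ℕ) : Prop := c ≠ 0 ∧ (i = 0 → c = 1) ∧ (i = 1 → c ≠ 3)

instance (i c : ℕ) : Decidable (mask i c) := by unfold mask; infer_instance

abbrev JJ (m : ℕ) := {p : Fin m × Fin 4 // mask p.1 p.2}

lemma card_JJ (k : ℕ) : Fintype.card (JJ (k + 2)) = 3 * k + 3 := by
  rw [Fintype.card_subtype, Finset.card_filter, Fintype.sum_prod_type]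
  simp only [Fin.sum_univ_four]
  rw [Fin.sum_univ_succ, Fin.sum_univ_succ]
  simp [mask]
  omega

def sl {R : Type} [CommRing R] {m : ℕ} (v : Fin m → Fin 4 → R) (i : Fin m) : ℍ[R] :=
  ⟨1, v i 1, if mask i 2 then v i 2 else 0, if mask i 3 then v i 3 else 0⟩

lemma mask_one (i : ℕ) : mask i 1 := by simp [mask]

lemma qmap_sl {R S : Type} [CommRing R] [CommRing S] (f : R →+* S) {m : ℕ}
    (v : Fin m → Fin 4 → R) (i : Fin m) : qmap f (sl v i) = sl (fun i c => f (v i c)) i := by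
  ext <;> simp [sl, apply_ite f]

noncomputable def qn {σ : Type} (x : ℍ[MvPolynomial σ ℤ]) : ℝ :=
  nrm x.re + nrm x.imI + nrm x.imJ + nrm x.imK

def qd {σ : Type} (x : ℍ[MvPolynomial σ ℤ]) (D : ℕ) : Prop :=
  x.re.totalDegree ≤ D ∧ x.imI.totalDegree ≤ D ∧ x.imJ.totalDegree ≤ D ∧ x.imK.totalDegree ≤ D

lemma qn_mul {σ : Type} (x y : ℍ[MvPolynomial σ ℤ]) : qn (x * y) ≤ qn x * qn y := by
  unfold qn
  rw [re_mul, imI_mul, imJ_mul, imK_mul]
  have h1 := fun a b c d : MvPolynomial σ ℤ => (nrm_sub_le (a - b - c) d).trans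
    (add_le_add_left ((nrm_sub_le (a - b) c).trans (add_le_add_left (nrm_sub_le a b) _)) _)
  have h2 := fun a b c d : MvPolynomial σ ℤ => (nrm_sub_le (a + b + c) d).trans
    (add_le_add_left ((nrm_add_le (a + b) c).trans (add_le_add_left (nrm_add_le a b) _)) _)
  have h3 := fun a b c d : MvPolynomial σ ℤ => (nrm_add_le (a - b + c) d).trans
    (add_le_add_left ((nrm_add_le (a - b) c).trans (add_le_add_left (nrm_sub_le a b) _)) _)
  have h4 := fun a b c d : MvPolynomial σ ℤ => (nrm_add_le (a + b - c) d).trans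
    (add_le_add_left ((nrm_sub_le (a + b) c).trans (add_le_add_left (nrm_add_le a b) _)) _)
  refine (add_le_add (add_le_add (add_le_add (h1 _ _ _ _) (h2 _ _ _ _)) (h3 _ _ _ _))
    (h4 _ _ _ _)).trans ?_
  have h := @nrm_mul_le σ ℤ _
  linarith [h x.re y.re, h x.re y.imI, h x.re y.imJ, h x.re y.imK, h x.imI y.re, h x.imI y.imI,
    h x.imI y.imJ, h x.imI y.imK, h x.imJ y.re, h x.imJ y.imI, h x.imJ y.imJ, h x.imJ y.imK,
    h x.imK y.re, h x.imK y.imI, h x.imK y.imJ, h x.imK y.imK]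

lemma qd_mul {σ : Type} {x y : ℍ[MvPolynomial σ ℤ]} {D E : ℕ} (hx : qd x D) (hy : qd y E) :
    qd (x * y) (D + E) := by
  obtain ⟨a1, a2, a3, a4⟩ := hx
  obtain ⟨b1, b2, b3, b4⟩ := hy
  have hm : ∀ {a b : MvPolynomial σ ℤ}, a.totalDegree ≤ D → b.totalDegree ≤ E →
      (a * b).totalDegree ≤ D + E := fun ha hb => (totalDegree_mul _ _).trans (add_le_add ha hb)
  have ha : ∀ {a b : MvPolynomial σ ℤ}, a.totalDegree ≤ D + E → b.totalDegree ≤ D + E →
      (a + b).totalDegree ≤ D + E := fun ha hb => (totalDegree_add _ _).trans (max_le ha hb)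
  have hs : ∀ {a b : MvPolynomial σ ℤ}, a.totalDegree ≤ D + E → b.totalDegree ≤ D + E →
      (a - b).totalDegree ≤ D + E := fun ha hb => (totalDegree_sub _ _).trans (max_le ha hb)
  unfold qd
  rw [re_mul, imI_mul, imJ_mul, imK_mul]
  exact ⟨hs (hs (hs (hm a1 b1) (hm a2 b2)) (hm a3 b3)) (hm a4 b4),
    hs (ha (ha (hm a1 b2) (hm a2 b1)) (hm a3 b4)) (hm a4 b3),
    ha (ha (hs (hm a1 b3) (hm a2 b4)) (hm a3 b1)) (hm a4 b2),
    ha (hs (ha (hm a1 b4) (hm a2 b3)) (hm a3 b2)) (hm a4 b1)⟩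

lemma wq_size {σ ι : Type} (x : ι → ℍ[MvPolynomial σ ℤ]) (b : ℝ) (h1 : ∀ i, qn (x i) ≤ b)
    (h2 : ∀ i, qd (x i) 1) (L : List (ι × Bool)) :
    qn (wq x L) ≤ b ^ L.length ∧ qd (wq x L) L.length := by
  induction L with
  | nil => simp [qn, qd, nrm_one]
  | cons s L ih =>
    rw [wq_cons, List.length_cons, pow_succ', add_comm]
    have a1 : qn (cond s.2 (x s.1) (star (x s.1))) ≤ b := by
      cases s.2
      · simpa [qn, nrm_neg] using h1 s.1
      · exact h1 s.1
    have a2 : qd (cond s.2 (x s.1) (star (x s.1))) 1 := by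
      cases s.2
      · simpa [qd] using h2 s.1
      · exact h2 s.1
    have a3 : ∀ y : ℍ[MvPolynomial σ ℤ], 0 ≤ qn y := fun y => by
      unfold qn; linarith [nrm_nonneg y.re, nrm_nonneg y.imI, nrm_nonneg y.imJ, nrm_nonneg y.imK]
    exact ⟨(qn_mul _ _).trans (mul_le_mul a1 ih.1 (a3 _) ((a3 _).trans a1)), qd_mul a2 ih.2⟩

lemma normSq_wq_le {ι : Type} (x : ι → ℍ[ℝ]) (b : ℝ) (h : ∀ i, normSq (x i) ≤ b)
    (L : List (ι × Bool)) : normSq (wq x L) ≤ b ^ L.length := by
  induction L with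
  | nil => simp
  | cons s L ih =>
    rw [wq_cons, map_mul, List.length_cons, pow_succ']
    have a1 : normSq (cond s.2 (x s.1) (star (x s.1))) ≤ b := by
      cases s.2
      · simpa using h s.1
      · exact h s.1
    exact mul_le_mul a1 ih normSq_nonneg (normSq_nonneg.trans a1)

def Dio {ι : Type} (β : ℝ) (x : ι → ℍ[ℝ]) : Prop :=
  ∃ C : ℝ, ∀ L : List (ι × Bool), L ≠ [] → FreeGroup.IsReduced L →
    exp (-(C * (L.length : ℝ) ^ β)) * normSq (wq x L) ≤ normSq (wq x L).im

lemma ae_ev_pos {q : ℕ} {P : MvPolynomial (Fin q) ℤ} (hP : P ≠ 0) :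
    ∀ᵐ x : Fin q → ℝ, (∀ i, |x i| ≤ 1) → 0 < ‖ev x P‖ := by
  obtain ⟨C, _, h⟩ := good q (fun _ => {P}) ⟨fun _ Q hQ => by
    rw [Finset.mem_singleton.mp hQ]; exact hP, sz P, sz_nonneg P, fun T => by
      rw [Finset.sum_singleton]
      have : 0 ≤ sz P * T := mul_nonneg (sz_nonneg P) (Nat.cast_nonneg _)
      linarith [add_one_le_exp (sz P * (T + 1))]⟩
  filter_upwards [h] with x hx hx1
  obtain ⟨T, hT⟩ := (hx hx1).exists
  exact (exp_pos _).trans_le (hT P (Finset.mem_singleton_self P))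

noncomputable def gv {m p : ℕ} (e : JJ m ≃ Fin p) (R : ℕ) (i : Fin m) (c : Fin 4) :
    MvPolynomial (Fin p) ℤ :=
  if h : mask i c then C (R : ℤ) * X (e ⟨(i, c), h⟩) else 0

lemma gv_size {m p : ℕ} (e : JJ m ≃ Fin p) (R : ℕ) (i : Fin m) (c : Fin 4) :
    nrm (gv e R i c) ≤ R ∧ (gv e R i c).totalDegree ≤ 1 := by
  unfold gv
  split_ifs
  · refine ⟨(nrm_mul_le _ _).trans (by rw [nrm_C, nrm_X]; simp), (totalDegree_mul _ _).trans ?_⟩
    rw [totalDegree_C, totalDegree_X]
  · simp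

noncomputable def pw {m p : ℕ} (e : JJ m ≃ Fin p) (R : ℕ) (L : List (Fin m × Bool)) :
    MvPolynomial (Fin p) ℤ := by
  classical
  exact if (wq (sl (gv e R)) L).imI ≠ 0 then (wq (sl (gv e R)) L).imI else
    if (wq (sl (gv e R)) L).imJ ≠ 0 then (wq (sl (gv e R)) L).imJ else (wq (sl (gv e R)) L).imK

lemma pw_cases {m p : ℕ} (e : JJ m ≃ Fin p) (R : ℕ) (L : List (Fin m × Bool)) :
    pw e R L = (wq (sl (gv e R)) L).imI ∨ pw e R L = (wq (sl (gv e R)) L).imJ ∨
      pw e R L = (wq (sl (gv e R)) L).imK := by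
  unfold pw; split_ifs <;> simp

lemma pw_ne_zero {m p : ℕ} (e : JJ m ≃ Fin p) {R : ℕ} (hR : R ≠ 0) (L : List (Fin m × Bool))
    (hL : L ≠ []) (h : FreeGroup.IsReduced L) : pw e R L ≠ 0 := by
  let c : Fin m → ℂ := fun i => ((if (i : ℕ) = 0 then 0 else (i : ℕ) + 1 : ℕ) : ℂ)
  have hc : ∀ i j, c i * c j ≠ 1 := by
    intro i j h
    have : (if (i : ℕ) = 0 then 0 else (i : ℕ) + 1) * (if (j : ℕ) = 0 then 0 else (j : ℕ) + 1) = 1 := by
      simp only [c] at h; exact_mod_cast h
    have := Nat.eq_one_of_mul_eq_one_right this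
    split_ifs at this; omega
  have hinj : Function.Injective c := by
    intro i j h
    have : (if (i : ℕ) = 0 then 0 else (i : ℕ) + 1) = (if (j : ℕ) = 0 then 0 else (j : ℕ) + 1) := by
      simp only [c] at h; exact_mod_cast h
    apply Fin.ext
    split_ifs at this <;> omega
  let v : Fin m → Fin 4 → ℂ := fun i => ![1, (nq (c i)).imI, (nq (c i)).imJ, 0]
  let f : MvPolynomial (Fin p) ℤ →+* ℂ :=
    eval₂Hom (Int.castRingHom ℂ) fun j => v (e.symm j).1.1 (e.symm j).1.2 / R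
  have hR' : (R : ℂ) ≠ 0 := by exact_mod_cast hR
  have hf : ∀ (i : Fin m) (c' : Fin 4), mask i c' → f (gv e R i c') = v i c' := by
    intro i c' h
    simp only [gv, dif_pos h, f, map_mul, eval₂Hom_C, eval₂Hom_X', Equiv.symm_apply_apply]
    simp; field_simp
  have hs : (fun i => qmap f (sl (gv e R) i)) = fun i => nq (c i) := by
    funext i
    rw [qmap_sl]
    ext
    · rfl
    · exact hf i 1 (mask_one _)
    · change (if mask i 2 then f (gv e R i 2) else 0) = _
      split_ifs with h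
      · exact hf i 2 h
      · have : (i : ℕ) = 0 := by by_contra h0; exact h ⟨by norm_num, fun h => absurd h h0, by norm_num⟩
        simp [nq, c, this]
    · change (if mask i 3 then f (gv e R i 3) else 0) = _
      split_ifs with h
      · exact hf i 3 h
      · rfl
  have h1 := pingpong_ne c hc hinj L hL h
  rw [← hs, ← qmap_wq, qmap_imI, qmap_imJ, qmap_imK] at h1
  unfold pw
  split_ifs with a1 a2
  · exact a1
  · exact a2
  · push Not at a1 a2
    rw [a1, a2, map_zero] at h1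
    intro a3
    rw [a3, map_zero] at h1
    simp at h1

lemma sz_pw {m p : ℕ} (e : JJ m ≃ Fin p) (R : ℕ) (L : List (Fin m × Bool)) :
    sz (pw e R L) ≤ (1 + 3 * R) * L.length := by
  have h := wq_size (sl (gv e R)) (1 + 3 * R) (fun i => by
    have := gv_size e R i
    have hR : (0 : ℝ) ≤ R := Nat.cast_nonneg _
    unfold qn sl
    split_ifs <;> simp only [nrm_one, nrm_zero] <;> linarith [(this 1).1, (this 2).1, (this 3).1])
    (fun i => by
      have := gv_size e R i
      unfold qd sl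
      split_ifs <;> simp [(this 1).2, (this 2).2, (this 3).2]) L
  set y := wq (sl (gv e R)) L
  have h1 : nrm (pw e R L) ≤ exp (3 * R * L.length) := by
    have a1 : nrm (pw e R L) ≤ qn y := by
      unfold qn
      rcases pw_cases e R L with h | h | h <;> rw [h] <;>
        linarith [nrm_nonneg y.re, nrm_nonneg y.imI, nrm_nonneg y.imJ, nrm_nonneg y.imK]
    refine a1.trans (h.1.trans ?_)
    rw [mul_comm _ (L.length : ℝ), exp_nat_mul]
    gcongr
    linarith [add_one_le_exp (3 * (R : ℝ))]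
  have h2 : ((pw e R L).totalDegree : ℝ) ≤ L.length := by
    obtain ⟨_, b1, b2, b3⟩ := h.2
    rcases pw_cases e R L with h | h | h <;> rw [h] <;> assumption_mod_cast
  have h3 := log_nrm_le _ (by positivity) h1
  unfold sz
  linarith

lemma ev_eq_ofReal {σ : Type} (x : σ → ℝ) (P : MvPolynomial σ ℤ) :
    ev x P = (eval₂Hom (Int.castRingHom ℝ) x P : ℝ) := by
  induction P using MvPolynomial.induction_on with
  | C a => simp [ev]
  | add p q hp hq => rw [map_add, map_add, hp, hq]; simp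
  | mul_X p i hp => rw [map_mul, map_mul, hp]; simp [ev]

lemma dio_cube {m p : ℕ} (e : JJ m ≃ Fin p) {R : ℕ} (hR : R ≠ 0) :
    ∀ᵐ x : Fin p → ℝ, (∀ j, |x j| ≤ 1) → Dio (2 - (1 / 2 : ℝ) ^ p)
      (fun i => qmap (eval₂Hom (Int.castRingHom ℝ) x) (sl (gv e R) i)) := by
  classical
  let F : ℕ → Finset (MvPolynomial (Fin p) ℤ) := fun T =>
    (Finset.univ.filter fun f : Fin T → Fin m × Bool =>
      List.ofFn f ≠ [] ∧ FreeGroup.IsReduced (List.ofFn f)).image fun f => pw e R (List.ofFn f)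
  have hR0 : (0 : ℝ) ≤ R := Nat.cast_nonneg _
  have hm0 : (0 : ℝ) ≤ m := Nat.cast_nonneg _
  have hF : Slow F := by
    refine ⟨fun T P hP => ?_, 2 * m + (1 + 3 * R), by positivity, fun T => ?_⟩
    · obtain ⟨f, hf, rfl⟩ := Finset.mem_image.mp hP
      have := (Finset.mem_filter.mp hf).2
      exact pw_ne_zero e hR _ this.1 this.2
    · have hT0 : (0 : ℝ) ≤ T := Nat.cast_nonneg _
      refine (sum_image_le' _ _ (fun P => 1 + sz P) fun P => by linarith [sz_nonneg P]).trans ?_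
      refine (Finset.sum_le_card_nsmul _ _ (exp ((1 + 3 * R) * T)) fun f _ => ?_).trans ?_
      · have := sz_pw e R (List.ofFn f)
        rw [List.length_ofFn] at this
        linarith [add_one_le_exp ((1 + 3 * (R : ℝ)) * T)]
      · have h1 : ((Finset.univ.filter fun f : Fin T → Fin m × Bool =>
            List.ofFn f ≠ [] ∧ FreeGroup.IsReduced (List.ofFn f)).card : ℝ) ≤ exp (2 * m) ^ T := by
          refine (Nat.cast_le.mpr (Finset.card_filter_le _ _)).trans ?_
          simp only [Finset.card_univ, Fintype.card_pi, Fintype.card_prod, Fintype.card_fin,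
            Fintype.card_bool, Finset.prod_const]
          push_cast
          gcongr
          linarith [add_one_le_exp (2 * (m : ℝ))]
        rw [nsmul_eq_mul]
        refine (mul_le_mul_of_nonneg_right h1 (exp_pos _).le).trans ?_
        rw [← exp_nat_mul, ← exp_add]
        exact exp_le_exp.mpr (by nlinarith)
  obtain ⟨C, hC, h1⟩ := good p F hF
  have h2 : ∀ᵐ x : Fin p → ℝ, ∀ L : List (Fin m × Bool), L ≠ [] → FreeGroup.IsReduced L →
      (∀ j, |x j| ≤ 1) → 0 < ‖ev x (pw e R L)‖ :=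
    ae_all_iff.mpr fun L => ae_all_iff.mpr fun a => ae_all_iff.mpr fun b =>
      ae_ev_pos (pw_ne_zero e hR L a b)
  filter_upwards [h1, h2] with x h1 h2 hx
  obtain ⟨T0, hT0⟩ := eventually_atTop.mp (h1 hx)
  obtain ⟨C2, hC2⟩ := ((List.finite_length_lt (Fin m × Bool) T0).image
    fun L => -log ‖ev x (pw e R L)‖).bddAbove
  set β := 2 - (1 / 2 : ℝ) ^ p with hβ
  set C3 := C * (1 + 3 * R) + |C2| with hC3
  refine ⟨2 * C3 + 3 * R ^ 2, fun L hL hr => ?_⟩
  have hT1 : (1 : ℝ) ≤ L.length := by exact_mod_cast List.length_pos_iff.mpr hL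
  have hβ1 : (L.length : ℝ) ^ β = L.length * AA p L.length := by
    unfold AA
    conv_rhs => enter [1]; rw [← rpow_one (L.length : ℝ)]
    rw [← rpow_add (by linarith), hβ]
    congr 1; ring
  have hA := one_le_AA p hT1
  have hTβ : (L.length : ℝ) ≤ (L.length : ℝ) ^ β := by rw [hβ1]; nlinarith
  have h3 : exp (-(C3 * (L.length : ℝ) ^ β)) ≤ ‖ev x (pw e R L)‖ := by
    by_cases hl : L.length < T0
    · have a1 : -log ‖ev x (pw e R L)‖ ≤ C2 := hC2 ⟨L, hl, rfl⟩
      rw [← exp_log (h2 L hL hr hx)]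
      refine exp_le_exp.mpr ?_
      have a2 : |C2| ≤ |C2| * (L.length : ℝ) ^ β := le_mul_of_one_le_right (abs_nonneg _) (by linarith)
      have a3 : 0 ≤ C * (1 + 3 * R) * (L.length : ℝ) ^ β := by positivity
      have := le_abs_self C2
      rw [hC3]; nlinarith
    · have a1 := hT0 L.length (not_lt.mp hl) (pw e R L) (Finset.mem_image.mpr ⟨L.get, by
        simp [hL, hr], by simp⟩)
      refine le_trans (exp_le_exp.mpr (neg_le_neg ?_)) a1
      have a2 := sz_pw e R L
      have a3 : 0 ≤ |C2| * (L.length : ℝ) ^ β := by positivity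
      have a4 : C * sz (pw e R L) * AA p L.length ≤ C * ((1 + 3 * R) * L.length) * AA p L.length := by
        gcongr
      rw [hC3, add_mul]
      rw [hβ1] at a3 ⊢
      nlinarith
  set f := eval₂Hom (Int.castRingHom ℝ) x
  have h4 : ‖ev x (pw e R L)‖ ^ 2 ≤ normSq (wq (fun i => qmap f (sl (gv e R) i)) L).im := by
    rw [← qmap_wq, ev_eq_ofReal, Complex.norm_real, Real.norm_eq_abs, sq_abs, normSq_def']
    set y := qmap f (wq (sl (gv e R)) L) with hy
    have a1 := sq_nonneg y.imI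
    have a2 := sq_nonneg y.imJ
    have a3 := sq_nonneg y.imK
    change _ ≤ (0 : ℝ) ^ 2 + y.imI ^ 2 + y.imJ ^ 2 + y.imK ^ 2
    rcases pw_cases e R L with h | h | h <;> rw [h]
    · change y.imI ^ 2 ≤ _; linarith
    · change y.imJ ^ 2 ≤ _; linarith
    · change y.imK ^ 2 ≤ _; linarith
  have h5 : normSq (wq (fun i => qmap f (sl (gv e R) i)) L) ≤ exp (3 * R ^ 2) ^ L.length := by
    refine normSq_wq_le _ _ (fun i => ?_) L
    have a1 : ∀ c, f (gv e R i c) ^ 2 ≤ R ^ 2 := by
      intro c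
      have := (norm_ev_le x hx (gv e R i c)).trans (gv_size e R i c).1
      rw [ev_eq_ofReal, Complex.norm_real, Real.norm_eq_abs] at this
      exact sq_le_sq' (by linarith [neg_abs_le (f (gv e R i c))]) ((le_abs_self _).trans this)
    rw [qmap_sl, normSq_def']
    have a2 := add_one_le_exp (3 * (R : ℝ) ^ 2)
    unfold sl
    split_ifs <;> simp only [] <;> nlinarith [a1 1, a1 2, a1 3]
  refine le_trans ?_ ((pow_le_pow_left₀ (exp_pos _).le h3 2).trans h4)
  refine (mul_le_mul_of_nonneg_left h5 (exp_pos _).le).trans ?_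
  rw [← exp_nat_mul, ← exp_nat_mul, ← exp_add]
  refine exp_le_exp.mpr ?_
  have : (L.length : ℝ) * (3 * R ^ 2) ≤ (L.length : ℝ) ^ β * (3 * R ^ 2) := by gcongr
  push_cast
  linarith

lemma ae_comp_surj {E F : Type} [NormedAddCommGroup E] [NormedSpace ℝ E] [MeasureSpace E]
    [BorelSpace E] [LocallyCompactSpace E] [(volume : Measure E).IsAddHaarMeasure]
    [NormedAddCommGroup F] [NormedSpace ℝ F] [MeasureSpace F] [BorelSpace F]
    [(volume : Measure F).IsAddHaarMeasure] (L : E →ₗ[ℝ] F) (hL : Function.Surjective L)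
    {p : F → Prop} (h : ∀ᵐ y, p y) : ∀ᵐ x, p (L x) := by
  obtain ⟨t, ht, hm, h0⟩ := exists_measurable_superset_of_null (ae_iff.mp h)
  have := (ae_comp_linearMap_mem_iff L volume volume hL hm.compl).mpr (by simpa [ae_iff] using h0)
  filter_upwards [this] with x hx
  by_contra hc
  exact hx (ht hc)

theorem dio_slice (k : ℕ) : ∀ᵐ v : Fin (k + 2) → Fin 4 → ℝ,
    Dio (2 - (1 / 2 : ℝ) ^ (3 * k + 3)) (sl v) := by
  let e : JJ (k + 2) ≃ Fin (3 * k + 3) := Fintype.equivFinOfCardEq (card_JJ k)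
  let L : ℕ → (Fin (k + 2) → Fin 4 → ℝ) →ₗ[ℝ] (Fin (3 * k + 3) → ℝ) := fun R =>
    { toFun := fun v j => ((R : ℝ) + 1)⁻¹ * v (e.symm j).1.1 (e.symm j).1.2
      map_add' := fun v w => by funext j; simp [mul_add]
      map_smul' := fun c v => by funext j; simp; ring }
  have hL : ∀ R, Function.Surjective (L R) := by
    intro R y
    refine ⟨fun i c => if h : mask i c then ((R : ℝ) + 1) * y (e ⟨(i, c), h⟩) else 0, ?_⟩
    funext j
    have : (R : ℝ) + 1 ≠ 0 := by positivity
    simp [L, (e.symm j).2, this]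
  have h := ae_all_iff.mpr fun R : ℕ =>
    ae_comp_surj (L R) (hL R) (dio_cube e (R := R + 1) (by omega))
  filter_upwards [h] with v hv
  obtain ⟨R, hR⟩ := exists_nat_ge ‖v‖
  have hR1 : (0 : ℝ) < R + 1 := by positivity
  have h1 := hv R fun j => by
    change |((R : ℝ) + 1)⁻¹ * v (e.symm j).1.1 (e.symm j).1.2| ≤ 1
    rw [abs_mul, abs_of_pos (inv_pos.mpr hR1), inv_mul_le_iff₀ hR1]
    have := (norm_le_pi_norm (v (e.symm j).1.1) (e.symm j).1.2).trans (norm_le_pi_norm v _)
    rw [Real.norm_eq_abs] at this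
    linarith
  have hf : ∀ (i : Fin (k + 2)) (c : Fin 4), mask i c →
      eval₂Hom (Int.castRingHom ℝ) (L R v) (gv e (R + 1) i c) = v i c := by
    intro i c h
    simp only [gv, dif_pos h, map_mul, eval₂Hom_C, eval₂Hom_X']
    simp [L]; field_simp
  convert h1 using 1
  funext i
  rw [qmap_sl]
  ext
  · rfl
  · exact (hf i 1 (mask_one _)).symm
  · change (if mask i 2 then _ else 0) = if mask i 2 then _ else 0
    split_ifs with h
    exacts [(hf i 2 h).symm, rfl]
  · change (if mask i 3 then _ else 0) = if mask i 3 then _ else 0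
    split_ifs with h
    exacts [(hf i 3 h).symm, rfl]

end Pool.Agent.MP_9bb777_an
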